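import Pool.Agent.CEF.Frc

/-!
# BPR: the number of bad pairs (common definitions of the modules)
-/

set_option autoImplicit false
set_option maxSynthPendingDepth 3

open scoped ContDiff Topology ENNReal
open Set Function Filter MeasureTheory

namespace Pool.Agent.BPR

open Pool.Agent.Helper17 Pool.Agent.CEF

variable {n : ℕ}

/-- the density of the bad pairs -/
noncomputable def bpG (lam : ℝ) (A : Phase n → Phase n →L[ℝ] Phase n) (q : Phase n × Phase n) :
    ℝ≥0∞ :=
  {q : Phase n × Phase n | lam ≤ ‖A q.1 - A q.2‖}.indicator 1 q / ‖q.1 - q.2‖ₑ ^ (4 * n)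

/-- the measure of the set of bad pairs -/
noncomputable def bp (lam : ℝ) (A : Phase n → Phase n →L[ℝ] Phase n) : ℝ≥0∞ := ∫⁻ q, bpG lam A q

theorem measurableSet_bad (lam : ℝ) {A : Phase n → Phase n →L[ℝ] Phase n} (hA : Continuous A) :
    MeasurableSet {q : Phase n × Phase n | lam ≤ ‖A q.1 - A q.2‖} :=
  (isClosed_le continuous_const
    (by fun_prop : Continuous fun q : Phase n × Phase n => A q.1 - A q.2).norm).measurableSet

theorem measurable_bpG (lam : ℝ) {A : Phase n → Phase n →L[ℝ] Phase n} (hA : Continuous A) :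
    Measurable (bpG lam A) := by
  unfold bpG
  have h2 : Measurable fun q : Phase n × Phase n => ‖q.1 - q.2‖ₑ :=
    (by fun_prop : Continuous fun q : Phase n × Phase n => q.1 - q.2).enorm.measurable
  exact (measurable_one.indicator (measurableSet_bad lam hA)).div (h2.pow_const _)

end Pool.Agent.BPR
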