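import Mathlib
import Pool.Agent.Helper17.SympBase
import Pool.Agent.CEF.Energy

/-!
# Bad pairs (MP_ec5dc5_gt, round 21)

Energies of compactly supported symplectomorphisms which count pairs of points at which the
derivatives differ.
-/

open scoped ContDiff Topology ENNReal
open Set Function TopologicalSpace MeasureTheory

namespace Pool.Agent.BPR

open Pool.Agent.Helper17 Pool.Agent.CEF

/-- The measure of the set of pairs `(x, y)` with `‖Dφ(x) - Dφ(y)‖ ≥ ε` with respect to the scale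
invariant measure `dx dy / ‖x - y‖^{4n}`. -/
noncomputable def badPairs {n : ℕ} (ε : ℝ) (φ : SympCt n) : ℝ≥0∞ :=
  ∫⁻ x, ∫⁻ y, {y | ε ≤ derivDist φ x y}.indicator (fun y => ENNReal.ofReal (1 / ‖x - y‖ ^ (4 * n))) y

/-- `Ψ` is a weight: a nondecreasing function from `[0, ∞]` to itself which is positive and finite
on `(0, ∞)`, and for which the integral of `Ψ(r) / r^{2n+1}` over `0 < r ≤ 1` is finite. -/
structure IsWeight (n : ℕ) (Ψ : ℝ≥0∞ → ℝ≥0∞) : Prop where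
  mono : Monotone Ψ
  pos : ∀ t, 0 < t → 0 < Ψ t
  lt_top : ∀ t, t < ⊤ → Ψ t < ⊤
  int : ∫⁻ r in Ioc (0 : ℝ) 1, Ψ (ENNReal.ofReal r) / ENNReal.ofReal (r ^ (2 * n + 1)) < ⊤

/-- The energy `∬ Ψ(‖Dφ(x) - Dφ(y)‖) / ‖x - y‖^{4n} dx dy`. -/
noncomputable def pairEnergy {n : ℕ} (Ψ : ℝ≥0∞ → ℝ≥0∞) (φ : SympCt n) : ℝ≥0∞ :=
  ∫⁻ x, ∫⁻ y, Ψ (ENNReal.ofReal (derivDist φ x y)) / ENNReal.ofReal (‖x - y‖ ^ (4 * n))

/-- The energy `∫ ‖D²φ(x)‖^{2n} dx`. -/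
noncomputable def hessEnergy {n : ℕ} (φ : SympCt n) : ℝ≥0∞ :=
  ∫⁻ x, ENNReal.ofReal (hessNorm φ x ^ (2 * n))

/-- The critical energies: `∬ Ψ(‖Dφ(x) - Dφ(y)‖) / ‖x - y‖^{4n} dx dy` for a weight `Ψ`, and
`∫ ‖D²φ(x)‖^{2n} dx`. -/
def IsCritEnergy {n : ℕ} (E : SympCt n → ℝ≥0∞) : Prop :=
  (∃ Ψ : ℝ≥0∞ → ℝ≥0∞, IsWeight n Ψ ∧ E = pairEnergy Ψ) ∨ E = hessEnergy

/-- The infimum of `E` over a path component of `Symp_ct(ℝ^{2n})`. -/
noncomputable def infOn {n : ℕ} (E : SympCt n → ℝ≥0∞) (c : ZerothHomotopy (SympCt n)) : ℝ≥0∞ :=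
  ⨅ φ : {φ : SympCt n // ZerothHomotopy.mk φ = c}, E φ.1

end Pool.Agent.BPR
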