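import Mathlib
import Pool.Agent.BPR.Bp
import Pool.Agent.BPR.Defs

open scoped ContDiff Topology ENNReal
open Set Function Filter MeasureTheory

namespace Pool.Agent.BPR

open Pool.Agent.Helper17 Pool.Agent.CEF

variable {n : ℕ}

/-- the set of bad pairs -/
abbrev bpS (lam : ℝ) (A : Phase n → Phase n →L[ℝ] Phase n) : Set (Phase n × Phase n) :=
  {q | lam ≤ ‖A q.1 - A q.2‖}

/-- the density of the energy -/
noncomputable def psG (Ψ : ℝ≥0∞ → ℝ≥0∞) (A : Phase n → Phase n →L[ℝ] Phase n)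
    (q : Phase n × Phase n) : ℝ≥0∞ := Ψ ‖A q.1 - A q.2‖ₑ / ‖q.1 - q.2‖ₑ ^ (4 * n)

theorem measurableSet_bpS (lam : ℝ) {A : Phase n → Phase n →L[ℝ] Phase n} (hA : Continuous A) :
    MeasurableSet (bpS lam A) :=
  (isClosed_le continuous_const (by fun_prop)).measurableSet

theorem measurable_div_dist {W : Phase n × Phase n → ℝ≥0∞} (hW : Measurable W) :
    Measurable (fun q : Phase n × Phase n => W q / ‖q.1 - q.2‖ₑ ^ (4 * n)) := by
  have h2 : Measurable fun q : Phase n × Phase n => ‖q.1 - q.2‖ₑ :=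
    (by fun_prop : Continuous fun q : Phase n × Phase n => q.1 - q.2).enorm.measurable
  exact hW.div (h2.pow_const _)

theorem measurable_psG {Ψ : ℝ≥0∞ → ℝ≥0∞} (hΨ : Monotone Ψ)
    {A : Phase n → Phase n →L[ℝ] Phase n} (hA : Continuous A) : Measurable (psG Ψ A) := by
  have h1 : Measurable fun q : Phase n × Phase n => ‖A q.1 - A q.2‖ₑ :=
    (by fun_prop : Continuous fun q : Phase n × Phase n => A q.1 - A q.2).enorm.measurable
  exact measurable_div_dist (hΨ.measurable.comp h1)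

/-- pairs of points of the unit ball at distance at most `r` -/
def nearS (n : ℕ) (r : ℝ) : Set (Phase n × Phase n) := {q | q ∈ Frc_S n (-1) ∧ ‖q.1 - q.2‖ ≤ r}

theorem pointwise_pw {W : Phase n × Phase n → ℝ≥0∞} (h0 : ∀ z, W (z, z) = 0)
    (x : Phase n) {s r : ℝ} (hs : 0 < s) (q : Phase n × Phase n) (hq : ‖q.1 - q.2‖ ≤ r) :
    W (x + s • q.1, x + s • q.2) ≤ ENNReal.ofReal ((r * s) ^ (4 * n)) *
      (W (x + s • q.1, x + s • q.2) / ‖(x + s • q.1) - (x + s • q.2)‖ₑ ^ (4 * n)) := by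
  by_cases h0' : q.1 = q.2
  · rw [h0', h0]
    exact bot_le
  · have hr : 0 ≤ r := (norm_nonneg _).trans hq
    have h3 : (x + s • q.1) - (x + s • q.2) = s • (q.1 - q.2) := by
      rw [add_sub_add_left_eq_sub, smul_sub]
    have h4 : ‖(x + s • q.1) - (x + s • q.2)‖ₑ ^ (4 * n) ≤
        ENNReal.ofReal ((r * s) ^ (4 * n)) := by
      rw [ENNReal.ofReal_pow (by positivity)]
      apply pow_le_pow_left'
      rw [h3, ← ofReal_norm, norm_smul, Real.norm_eq_abs, abs_of_pos hs]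
      apply ENNReal.ofReal_le_ofReal
      nlinarith
    have h5 : ‖(x + s • q.1) - (x + s • q.2)‖ₑ ^ (4 * n) ≠ 0 := by
      apply pow_ne_zero
      rw [h3, enorm_ne_zero]
      exact smul_ne_zero hs.ne' (sub_ne_zero.mpr h0')
    have h6 : ‖(x + s • q.1) - (x + s • q.2)‖ₑ ^ (4 * n) ≠ ⊤ := by
      apply ENNReal.pow_ne_top
      exact enorm_ne_top
    calc W (x + s • q.1, x + s • q.2)
        = ‖(x + s • q.1) - (x + s • q.2)‖ₑ ^ (4 * n) *
          (W (x + s • q.1, x + s • q.2) /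
            ‖(x + s • q.1) - (x + s • q.2)‖ₑ ^ (4 * n)) := by
          rw [ENNReal.mul_div_cancel h5 h6]
      _ ≤ _ := by gcongr

/-- integrals over pairs at distance at least `d`, in scale invariant coordinates -/
theorem pw {W : Phase n × Phase n → ℝ≥0∞} (hW : Measurable W) (h0 : ∀ z, W (z, z) = 0)
    (x : Phase n) {s : ℝ} (hs : 0 < s) (d : ℝ) :
    ∫⁻ q in Frc_S n d, W (x + s • q.1, x + s • q.2) ≤
      ENNReal.ofReal (16 ^ n) * ∫⁻ q in Frc_U x s d, W q / ‖q.1 - q.2‖ₑ ^ (4 * n) := by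
  have e0 : (16 : ℝ) ^ n = 2 ^ (4 * n) := by rw [pow_mul]; norm_num
  have hG0 := measurable_div_dist hW
  have hG : Measurable fun q : Phase n × Phase n =>
      (fun q : Phase n × Phase n => W q / ‖q.1 - q.2‖ₑ ^ (4 * n)) (x + s • q.1, x + s • q.2) :=
    hG0.comp (by fun_prop)
  calc ∫⁻ q in Frc_S n d, W (x + s • q.1, x + s • q.2)
      ≤ ∫⁻ q in Frc_S n d, ENNReal.ofReal ((2 * s) ^ (4 * n)) *
          (fun q : Phase n × Phase n => W q / ‖q.1 - q.2‖ₑ ^ (4 * n))
            (x + s • q.1, x + s • q.2) := by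
        apply setLIntegral_mono (hG.const_mul _)
        rintro q ⟨h1, h2, -⟩
        refine pointwise_pw h0 x hs q ?_
        have := norm_sub_le q.1 q.2
        linarith
    _ = ENNReal.ofReal ((2 * s) ^ (4 * n)) *
          ∫⁻ q in Frc_S n d, (fun q : Phase n × Phase n => W q / ‖q.1 - q.2‖ₑ ^ (4 * n))
            (x + s • q.1, x + s • q.2) := by
        rw [lintegral_const_mul _ hG]
    _ = ENNReal.ofReal (16 ^ n) * (ENNReal.ofReal (s ^ (4 * n)) *
          ∫⁻ q in Frc_S n d, (fun q : Phase n × Phase n => W q / ‖q.1 - q.2‖ₑ ^ (4 * n))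
            (x + s • q.1, x + s • q.2)) := by
        rw [mul_pow, ← e0, ENNReal.ofReal_mul (by positivity), mul_assoc]
    _ = _ := by rw [Frc_scale hG0 x hs d]

/-- integrals over pairs at distance at most `r`, in scale invariant coordinates -/
theorem pwr {W : Phase n × Phase n → ℝ≥0∞} (hW : Measurable W) (h0 : ∀ z, W (z, z) = 0)
    (x : Phase n) {s : ℝ} (hs : 0 < s) {r : ℝ} (hr : 0 ≤ r) :
    ∫⁻ q in nearS n r, W (x + s • q.1, x + s • q.2) ≤
      ENNReal.ofReal (r ^ (4 * n)) * ∫⁻ q, W q / ‖q.1 - q.2‖ₑ ^ (4 * n) := by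
  have hG0 := measurable_div_dist hW
  have hG : Measurable fun q : Phase n × Phase n =>
      (fun q : Phase n × Phase n => W q / ‖q.1 - q.2‖ₑ ^ (4 * n)) (x + s • q.1, x + s • q.2) :=
    hG0.comp (by fun_prop)
  calc ∫⁻ q in nearS n r, W (x + s • q.1, x + s • q.2)
      ≤ ∫⁻ q in nearS n r, ENNReal.ofReal ((r * s) ^ (4 * n)) *
          (fun q : Phase n × Phase n => W q / ‖q.1 - q.2‖ₑ ^ (4 * n))
            (x + s • q.1, x + s • q.2) := by
        apply setLIntegral_mono (hG.const_mul _)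
        rintro q ⟨-, h2⟩
        exact pointwise_pw h0 x hs q h2
    _ ≤ ∫⁻ q in Frc_S n (-1), ENNReal.ofReal ((r * s) ^ (4 * n)) *
          (fun q : Phase n × Phase n => W q / ‖q.1 - q.2‖ₑ ^ (4 * n))
            (x + s • q.1, x + s • q.2) :=
        lintegral_mono_set fun q hq => hq.1
    _ = ENNReal.ofReal ((r * s) ^ (4 * n)) *
          ∫⁻ q in Frc_S n (-1), (fun q : Phase n × Phase n => W q / ‖q.1 - q.2‖ₑ ^ (4 * n))
            (x + s • q.1, x + s • q.2) := by
        rw [lintegral_const_mul _ hG]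
    _ = ENNReal.ofReal (r ^ (4 * n)) * (ENNReal.ofReal (s ^ (4 * n)) *
          ∫⁻ q in Frc_S n (-1), (fun q : Phase n × Phase n => W q / ‖q.1 - q.2‖ₑ ^ (4 * n))
            (x + s • q.1, x + s • q.2)) := by
        rw [mul_pow, ENNReal.ofReal_mul (by positivity), mul_assoc]
    _ ≤ _ := by
        rw [Frc_scale hG0 x hs (-1)]
        gcongr
        exact Measure.restrict_le_self

end Pool.Agent.BPR
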