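import Mathlib
import Pool.Agent.BPR.Base

open scoped ContDiff Topology ENNReal
open Set Function Filter MeasureTheory

namespace Pool.Agent.BPR

open Pool.Agent.Helper17 Pool.Agent.CEF

variable {n : ℕ}

theorem finrank_phase : Module.finrank ℝ (Phase n) = 2 * n := by
  rw [finrank_euclideanSpace, Fintype.card_sum, Fintype.card_fin]
  ring

theorem lintegral_scale (g : Phase n → ℝ≥0∞) (hg : Measurable g) {c : ℝ} (hc : 0 < c) :
    ∫⁻ h, g (c • h) = ENNReal.ofReal ((c ^ (2 * n))⁻¹) * ∫⁻ h, g h := by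
  rw [← lintegral_map hg (measurable_const_smul c), Measure.map_addHaar_smul _ hc.ne',
    lintegral_smul_measure, finrank_phase, abs_of_pos (by positivity), smul_eq_mul]

/-- change of variables `(z, w) ↦ (z + a (w - z), z + b (w - z))` -/
theorem change {F : Phase n × Phase n → ℝ≥0∞} (hF : Measurable F) {a b c : ℝ} (hc : 0 < c)
    (hab : b - a = c) :
    ∫⁻ q : Phase n × Phase n, F (q.1 + a • (q.2 - q.1), q.1 + b • (q.2 - q.1)) =
      ENNReal.ofReal ((c ^ (2 * n))⁻¹) * ∫⁻ q, F q := by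
  have hm1 : Measurable fun q : Phase n × Phase n =>
      F (q.1 + a • (q.2 - q.1), q.1 + b • (q.2 - q.1)) := hF.comp (by fun_prop)
  have hm2 : Measurable fun q : Phase n × Phase n => F (q.1 + a • q.2, q.1 + b • q.2) :=
    hF.comp (by fun_prop)
  have hm3 : Measurable fun q : Phase n × Phase n => F (q.2, q.2 + c • q.1) :=
    hF.comp (by fun_prop)
  rw [Measure.volume_eq_prod, lintegral_prod _ hm1.aemeasurable, lintegral_prod _ hF.aemeasurable]
  have e1 : ∀ z : Phase n, ∫⁻ w, F (z + a • (w - z), z + b • (w - z)) =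
      ∫⁻ h, F (z + a • h, z + b • h) := by
    intro z
    rw [← lintegral_add_left_eq_self (fun w => F (z + a • (w - z), z + b • (w - z))) z]
    simp only [add_sub_cancel_left]
  simp only [e1]
  rw [lintegral_lintegral_swap (f := fun z h => F (z + a • h, z + b • h)) hm2.aemeasurable]
  have e2 : ∀ h : Phase n, ∫⁻ z, F (z + a • h, z + b • h) = ∫⁻ z, F (z, z + c • h) := by
    intro h
    rw [← lintegral_add_right_eq_self (fun z => F (z, z + c • h)) (a • h)]
    apply lintegral_congr
    intro z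
    congr 2
    rw [← hab, sub_smul]
    abel
  simp only [e2]
  rw [lintegral_lintegral_swap (f := fun h z => F (z, z + c • h)) hm3.aemeasurable]
  have e3 : ∀ z : Phase n, ∫⁻ h, F (z, z + c • h) =
      ENNReal.ofReal ((c ^ (2 * n))⁻¹) * ∫⁻ w, F (z, w) := by
    intro z
    have hm4 : Measurable fun h : Phase n => F (z, z + h) := hF.comp (by fun_prop)
    rw [lintegral_scale (fun h => F (z, z + h)) hm4 hc,
      lintegral_add_left_eq_self (fun w => F (z, w)) z]
  simp only [e3]
  rw [lintegral_const_mul']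
  exact ENNReal.ofReal_ne_top

theorem chain_sum {F : Phase n × Phase n → ℝ≥0∞} (hFm : Measurable F) {k : ℕ} (hk : 1 ≤ k) :
    ∫⁻ q : Phase n × Phase n, ∑ i ∈ Finset.range k, F (q.1 + ((i : ℝ) / k) • (q.2 - q.1),
        q.1 + (((i : ℝ) + 1) / k) • (q.2 - q.1)) =
      k * (ENNReal.ofReal ((k : ℝ) ^ (2 * n)) * ∫⁻ q, F q) := by
  have hk0 : (0 : ℝ) < k := by exact_mod_cast hk
  have h1 : ∀ i : ℕ, Measurable fun q : Phase n × Phase n =>
      F (q.1 + ((i : ℝ) / k) • (q.2 - q.1), q.1 + (((i : ℝ) + 1) / k) • (q.2 - q.1)) := by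
    intro i
    have h2 : Continuous fun q : Phase n × Phase n =>
      (q.1 + ((i : ℝ) / k) • (q.2 - q.1), q.1 + (((i : ℝ) + 1) / k) • (q.2 - q.1)) := by
      fun_prop
    exact hFm.comp h2.measurable
  have h3 : ∀ i : ℕ, ∫⁻ q : Phase n × Phase n,
      F (q.1 + ((i : ℝ) / k) • (q.2 - q.1), q.1 + (((i : ℝ) + 1) / k) • (q.2 - q.1)) =
      ENNReal.ofReal ((k : ℝ) ^ (2 * n)) * ∫⁻ q, F q := by
    intro i
    have h4 : ((i : ℝ) + 1) / k - (i : ℝ) / k = 1 / k := by
      rw [← sub_div, add_sub_cancel_left]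
    have h5 : (0 : ℝ) < 1 / k := by positivity
    rw [change hFm h5 h4]
    congr 2
    rw [div_pow, one_pow, one_div, inv_inv]
  rw [lintegral_finsetSum _ (fun i _ => h1 i)]
  rw [Finset.sum_congr rfl (fun i _ => h3 i), Finset.sum_const, Finset.card_range, nsmul_eq_mul]

/-- **Chains.** -/
theorem chain (hn : 1 ≤ n) {A : Phase n → Phase n →L[ℝ] Phase n} (hA : Continuous A)
    (x : Phase n) {s : ℝ} (hs : 0 < s) {lam : ℝ} (hl : 0 < lam) (k : ℕ) (hk : 1 ≤ k) :
    (k : ℝ≥0∞) ^ (2 * n - 1) * volume {q : Phase n × Phase n | q ∈ Frc_S n (-1) ∧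
      k * lam ≤ ‖A (x + s • q.1) - A (x + s • q.2)‖} ≤ 16 ^ n * bp lam A := by
  set T : Set (Phase n × Phase n) := {q | q ∈ Frc_S n (-1) ∧
      k * lam ≤ ‖A (x + s • q.1) - A (x + s • q.2)‖} with hT
  have hk0 : (0 : ℝ) < k := by exact_mod_cast hk
  have hc1 : Continuous fun q : Phase n × Phase n =>
      ‖A (x + s • q.1) - A (x + s • q.2)‖ := by fun_prop
  have hTm : MeasurableSet T := (Frc_measS (-1)).inter
    (isClosed_le continuous_const hc1).measurableSet
  set B : Set (Phase n × Phase n) := {q | q ∈ nearS n (2 / k) ∧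
    lam ≤ ‖A (x + s • q.1) - A (x + s • q.2)‖} with hB
  have hc2 : Continuous fun q : Phase n × Phase n => ‖q.1 - q.2‖ := by fun_prop
  have hNm : MeasurableSet (nearS n (2 / (k : ℝ))) := (Frc_measS (-1)).inter
    (isClosed_le hc2 continuous_const).measurableSet
  have hBm : MeasurableSet B := hNm.inter
    (isClosed_le continuous_const hc1).measurableSet
  set F : Phase n × Phase n → ℝ≥0∞ := B.indicator 1 with hF
  have hFm : Measurable F := measurable_one.indicator hBm
  -- the integral of F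
  have hFint : ∫⁻ q, F q ≤ ENNReal.ofReal ((2 / k) ^ (4 * n)) * bp lam A := by
    have h1 : ∫⁻ q, F q = ∫⁻ q in nearS n (2 / (k : ℝ)),
        (bpS lam A).indicator 1 (x + s • q.1, x + s • q.2) := by
      rw [← lintegral_indicator hNm]
      apply lintegral_congr
      intro q
      by_cases h2 : q ∈ nearS n (2 / (k : ℝ))
      · rw [indicator_of_mem h2]
        by_cases h3 : lam ≤ ‖A (x + s • q.1) - A (x + s • q.2)‖
        · rw [hF, indicator_of_mem (show q ∈ B from ⟨h2, h3⟩), indicator_of_mem]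
          · rfl
          · exact h3
        · rw [hF, indicator_of_notMem (fun h => h3 h.2), indicator_of_notMem]
          exact h3
      · rw [indicator_of_notMem h2, hF, indicator_of_notMem (fun h => h2 h.1)]
    rw [h1]
    refine pwr (measurable_one.indicator (measurableSet_bpS lam hA)) ?_ x hs (by positivity)
    intro z
    apply indicator_of_notMem
    intro h
    have h2 : lam ≤ ‖A z - A z‖ := h
    rw [sub_self, norm_zero] at h2
    linarith
  -- the chain
  have hcov : ∀ q, T.indicator (1 : Phase n × Phase n → ℝ≥0∞) q ≤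
      ∑ i ∈ Finset.range k, F (q.1 + ((i : ℝ) / k) • (q.2 - q.1),
        q.1 + (((i : ℝ) + 1) / k) • (q.2 - q.1)) := by
    intro q
    by_cases hq : q ∈ T
    swap
    · rw [indicator_of_notMem hq]
      exact bot_le
    rw [indicator_of_mem hq]
    obtain ⟨⟨hq1, hq2, -⟩, hq3⟩ := hq
    have hball : ∀ a : ℝ, 0 ≤ a → a ≤ 1 → ‖q.1 + a • (q.2 - q.1)‖ ≤ 1 := by
      intro a ha ha'
      have h1 : q.1 + a • (q.2 - q.1) = (1 - a) • q.1 + a • q.2 := by
        rw [smul_sub, sub_smul, one_smul]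
        abel
      rw [h1]
      calc ‖(1 - a) • q.1 + a • q.2‖ ≤ ‖(1 - a) • q.1‖ + ‖a • q.2‖ := norm_add_le _ _
        _ = (1 - a) * ‖q.1‖ + a * ‖q.2‖ := by
            rw [norm_smul, norm_smul, Real.norm_eq_abs, Real.norm_eq_abs, abs_of_nonneg ha,
              abs_of_nonneg (by linarith)]
        _ ≤ 1 := by nlinarith
    obtain ⟨i, hi, hi2⟩ : ∃ i ∈ Finset.range k, lam ≤
        ‖A (x + s • (q.1 + ((i : ℝ) / k) • (q.2 - q.1))) -
          A (x + s • (q.1 + (((i : ℝ) + 1) / k) • (q.2 - q.1)))‖ := by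
      by_contra hcon
      push Not at hcon
      have h1 : A (x + s • q.1) - A (x + s • q.2) = ∑ i ∈ Finset.range k,
          (A (x + s • (q.1 + ((i : ℝ) / k) • (q.2 - q.1))) -
          A (x + s • (q.1 + (((i : ℝ) + 1) / k) • (q.2 - q.1)))) := by
        have h2 := Finset.sum_range_sub' (fun i : ℕ =>
          A (x + s • (q.1 + ((i : ℝ) / k) • (q.2 - q.1)))) k
        simp only [Nat.cast_add, Nat.cast_one, Nat.cast_zero, zero_div, zero_smul, add_zero] at h2
        rw [h2, div_self hk0.ne', one_smul, add_sub_cancel]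
      have h3 : ‖A (x + s • q.1) - A (x + s • q.2)‖ < k * lam := by
        rw [h1]
        calc _ ≤ ∑ i ∈ Finset.range k, ‖A (x + s • (q.1 + ((i : ℝ) / k) • (q.2 - q.1))) -
              A (x + s • (q.1 + (((i : ℝ) + 1) / k) • (q.2 - q.1)))‖ := norm_sum_le _ _
          _ < ∑ i ∈ Finset.range k, lam :=
              Finset.sum_lt_sum_of_nonempty (Finset.nonempty_range_iff.2 (by omega)) hcon
          _ = k * lam := by simp
      linarith
    have hik : (i : ℝ) + 1 ≤ k := by
      have := Finset.mem_range.1 hi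
      exact_mod_cast this
    have hi0 : (0 : ℝ) ≤ i := Nat.cast_nonneg i
    refine le_trans ?_ (Finset.single_le_sum (f := fun i : ℕ =>
      F (q.1 + ((i : ℝ) / k) • (q.2 - q.1), q.1 + (((i : ℝ) + 1) / k) • (q.2 - q.1)))
      (fun _ _ => bot_le) hi)
    have hmem : (q.1 + ((i : ℝ) / k) • (q.2 - q.1),
        q.1 + (((i : ℝ) + 1) / k) • (q.2 - q.1)) ∈ B := by
      refine ⟨⟨⟨hball _ (by positivity) ?_, hball _ (by positivity) ?_, ?_⟩, ?_⟩, hi2⟩
      · rw [div_le_one hk0]
        linarith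
      · rw [div_le_one hk0]
        exact hik
      · have := norm_nonneg ((q.1 + ((i : ℝ) / k) • (q.2 - q.1)) -
          (q.1 + (((i : ℝ) + 1) / k) • (q.2 - q.1)))
        show (-1 : ℝ) < _
        linarith
      · show ‖(q.1 + ((i : ℝ) / k) • (q.2 - q.1)) -
          (q.1 + (((i : ℝ) + 1) / k) • (q.2 - q.1))‖ ≤ 2 / k
        have h1 : (q.1 + ((i : ℝ) / k) • (q.2 - q.1)) -
            (q.1 + (((i : ℝ) + 1) / k) • (q.2 - q.1)) = (-(1 / (k : ℝ))) • (q.2 - q.1) := by
          rw [add_sub_add_left_eq_sub, ← sub_smul]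
          congr 1
          field_simp
          ring
        rw [h1, norm_smul, norm_neg, Real.norm_eq_abs, abs_of_pos (by positivity)]
        have h2 := norm_sub_le q.2 q.1
        have h3 : ‖q.2 - q.1‖ ≤ 2 := by linarith
        calc 1 / (k : ℝ) * ‖q.2 - q.1‖ ≤ 1 / k * 2 := by gcongr
          _ = 2 / k := by ring
    rw [hF, indicator_of_mem hmem]
    rfl
  have hvol : volume T ≤ k * (ENNReal.ofReal (k ^ (2 * n)) *
      (ENNReal.ofReal ((2 / k) ^ (4 * n)) * bp lam A)) := by
    rw [← lintegral_indicator_one hTm]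
    refine (lintegral_mono hcov).trans ?_
    rw [chain_sum hFm hk]
    gcongr
  calc (k : ℝ≥0∞) ^ (2 * n - 1) * volume T
      ≤ (k : ℝ≥0∞) ^ (2 * n - 1) * (k * (ENNReal.ofReal (k ^ (2 * n)) *
      (ENNReal.ofReal ((2 / k) ^ (4 * n)) * bp lam A))) := by gcongr
    _ = ENNReal.ofReal ((k : ℝ) ^ (2 * n - 1) * (k * (k ^ (2 * n) * (2 / k) ^ (4 * n)))) *
        bp lam A := by
        have e0 : ENNReal.ofReal ((k : ℝ) ^ (2 * n - 1)) = (k : ℝ≥0∞) ^ (2 * n - 1) := by
          rw [ENNReal.ofReal_pow hk0.le, ENNReal.ofReal_natCast]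
        rw [ENNReal.ofReal_mul (by positivity), ENNReal.ofReal_mul (by positivity),
          ENNReal.ofReal_mul (by positivity), e0, ENNReal.ofReal_natCast]
        ring
    _ = 16 ^ n * bp lam A := by
        congr 1
        have e1 : (k : ℝ) ^ (2 * n - 1) * (k * (k ^ (2 * n) * (2 / k) ^ (4 * n))) = 16 ^ n := by
          have e2 : (k : ℝ) ^ (2 * n - 1) * k = k ^ (2 * n) := by
            rw [← pow_succ]
            congr 1
            omega
          have e3 : (16 : ℝ) ^ n = 2 ^ (4 * n) := by rw [pow_mul]; norm_num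
          rw [← mul_assoc, e2, div_pow, e3]
          have e4 : (k : ℝ) ^ (4 * n) = k ^ (2 * n) * k ^ (2 * n) := by
            rw [← pow_add]
            congr 1
            ring
          rw [e4]
          field_simp
        rw [e1, ENNReal.ofReal_pow (by norm_num)]
        norm_num

end Pool.Agent.BPR
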