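import Pool.Agent.BPR.Defs

/-!
# BPR, [F]: the energies of the pairs are finite
-/

set_option autoImplicit false
set_option maxSynthPendingDepth 3

open scoped ContDiff Topology ENNReal
open Set Function Filter MeasureTheory

namespace Pool.Agent.BPR

open Pool.Agent.Helper17 Pool.Agent.CEF

/-- the weight on the real line -/
private noncomputable def Fin_P (Ψ : ℝ≥0∞ → ℝ≥0∞) (r : ℝ) : ℝ := (Ψ (ENNReal.ofReal r)).toReal

private theorem Fin_ofReal {n : ℕ} {Ψ : ℝ≥0∞ → ℝ≥0∞} (hΨ : IsWeight n Ψ) (r : ℝ) :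
    ENNReal.ofReal (Fin_P Ψ r) = Ψ (ENNReal.ofReal r) :=
  ENNReal.ofReal_toReal (hΨ.lt_top _ ENNReal.ofReal_lt_top).ne

private theorem Fin_nonneg (Ψ : ℝ≥0∞ → ℝ≥0∞) (r : ℝ) : 0 ≤ Fin_P Ψ r := ENNReal.toReal_nonneg

private theorem Fin_mono {n : ℕ} {Ψ : ℝ≥0∞ → ℝ≥0∞} (hΨ : IsWeight n Ψ) : Monotone (Fin_P Ψ) :=
  fun _ _ h => ENNReal.toReal_mono (hΨ.lt_top _ ENNReal.ofReal_lt_top).ne
    (hΨ.mono (ENNReal.ofReal_le_ofReal h))

private theorem Fin_meas {n : ℕ} {Ψ : ℝ≥0∞ → ℝ≥0∞} (hΨ : IsWeight n Ψ) : Measurable (Fin_P Ψ) :=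
  (Fin_mono hΨ).measurable

/-- integrability near zero -/
private theorem Fin_int1 {n : ℕ} {Ψ : ℝ≥0∞ → ℝ≥0∞} (hΨ : IsWeight n Ψ) :
    IntegrableOn (fun r : ℝ => Fin_P Ψ r / r ^ (2 * n + 1)) (Ioc 0 1) := by
  refine ⟨((Fin_meas hΨ).div (measurable_id.pow_const _)).aestronglyMeasurable, ?_⟩
  have h1 := hΨ.int
  refine lt_of_le_of_lt (le_of_eq ?_) h1
  refine setLIntegral_congr_fun measurableSet_Ioc fun r hr => ?_
  have hr0 : 0 < r ^ (2 * n + 1) := pow_pos hr.1 _
  change ‖Fin_P Ψ r / r ^ (2 * n + 1)‖ₑ = Ψ (ENNReal.ofReal r) / ENNReal.ofReal (r ^ (2 * n + 1))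
  rw [Real.enorm_of_nonneg (div_nonneg (Fin_nonneg Ψ r) hr0.le), ENNReal.ofReal_div_of_pos hr0,
    Fin_ofReal hΨ]

/-- a weight vanishes at zero -/
theorem weight_zero {n : ℕ} {Ψ : ℝ≥0∞ → ℝ≥0∞} (hΨ : IsWeight n Ψ) : Ψ 0 = 0 := by
  by_contra h0
  have hc : 0 < Fin_P Ψ 0 := by
    unfold Fin_P
    rw [ENNReal.ofReal_zero]
    exact ENNReal.toReal_pos h0 (hΨ.lt_top 0 ENNReal.zero_lt_top).ne
  have h1 : IntegrableOn (fun r : ℝ => r ^ (-((2 * n + 1 : ℕ) : ℝ))) (Ioo 0 1) := by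
    have h2 := (Fin_int1 hΨ).mono_set (Ioo_subset_Ioc_self : Ioo (0 : ℝ) 1 ⊆ Ioc 0 1)
    refine Integrable.mono' (h2.const_mul (Fin_P Ψ 0)⁻¹) ?_ ?_
    · exact (measurable_id.pow_const _).aestronglyMeasurable
    · refine (ae_restrict_iff' measurableSet_Ioo).2 (Eventually.of_forall fun r hr => ?_)
      have hr0 : 0 < r := hr.1
      rw [Real.rpow_neg hr0.le, Real.rpow_natCast, Real.norm_of_nonneg (by positivity)]
      have h3 : Fin_P Ψ 0 ≤ Fin_P Ψ r := Fin_mono hΨ hr0.le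
      rw [div_eq_mul_inv, ← mul_assoc]
      refine le_mul_of_one_le_left (by positivity) ?_
      rw [← div_eq_inv_mul, one_le_div hc]
      exact h3
  rw [intervalIntegral.integrableOn_Ioo_rpow_iff one_pos] at h1
  push_cast at h1
  have : (0 : ℝ) ≤ 2 * n := by positivity
  linarith

private theorem Fin_int2 {n : ℕ} {Ψ : ℝ≥0∞ → ℝ≥0∞} (hΨ : IsWeight n Ψ) {C : ℝ} (hC : 1 ≤ C) :
    IntegrableOn (fun r : ℝ => Fin_P Ψ r / r ^ (2 * n + 1)) (Ioc 0 C) := by
  rw [← Ioc_union_Ioc_eq_Ioc zero_le_one hC, integrableOn_union]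
  refine ⟨Fin_int1 hΨ, ?_⟩
  refine Measure.integrableOn_of_bounded (M := Fin_P Ψ C) measure_Ioc_lt_top.ne
    ((Fin_meas hΨ).div (measurable_id.pow_const _)).aestronglyMeasurable ?_
  refine (ae_restrict_iff' measurableSet_Ioc).2 (Eventually.of_forall fun r hr => ?_)
  have hr1 : 1 ≤ r := hr.1.le
  have h1 : (1 : ℝ) ≤ r ^ (2 * n + 1) := one_le_pow₀ hr1
  rw [Real.norm_of_nonneg (div_nonneg (Fin_nonneg Ψ r) (by positivity))]
  exact (div_le_self (Fin_nonneg Ψ r) h1).trans (Fin_mono hΨ hr.2)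

/-- the radial profile -/
private noncomputable def Fin_f (n : ℕ) (Ψ : ℝ≥0∞ → ℝ≥0∞) (C : ℝ) (y : ℝ) : ℝ :=
  Fin_P Ψ (C * min y 1) / y ^ (4 * n)

private theorem Fin_radial {n : ℕ} (hn : n ≠ 0) {Ψ : ℝ≥0∞ → ℝ≥0∞} (hΨ : IsWeight n Ψ) {C : ℝ}
    (hC : 1 ≤ C) :
    IntegrableOn (fun y : ℝ => y ^ (2 * n - 1) • Fin_f n Ψ C y) (Ioi 0) := by
  have hn1 : 1 ≤ n := Nat.one_le_iff_ne_zero.2 hn
  have hC0 : 0 < C := by linarith
  rw [← Ioc_union_Ioi_eq_Ioi (zero_le_one (α := ℝ)), integrableOn_union]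
  constructor
  · have h1 : IntegrableOn (fun y : ℝ => C ^ (2 * n + 1) *
        (Fin_P Ψ (C * y) / (C * y) ^ (2 * n + 1))) (Ioc 0 1) := by
      refine Integrable.const_mul ?_ _
      have h2 := (intervalIntegrable_iff_integrableOn_Ioc_of_le hC0.le).2 (Fin_int2 hΨ hC)
      have h3 := h2.comp_mul_left (c := C)
      rw [zero_div, div_self hC0.ne', intervalIntegrable_iff_integrableOn_Ioc_of_le zero_le_one]
        at h3
      exact h3
    refine h1.congr_fun (fun y hy => ?_) measurableSet_Ioc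
    have hy0 : 0 < y := hy.1
    change C ^ (2 * n + 1) * (Fin_P Ψ (C * y) / (C * y) ^ (2 * n + 1)) =
      y ^ (2 * n - 1) * (Fin_P Ψ (C * min y 1) / y ^ (4 * n))
    rw [min_eq_left hy.2, mul_pow]
    have e : 4 * n = (2 * n - 1) + (2 * n + 1) := by omega
    rw [e, pow_add y (2 * n - 1) (2 * n + 1)]
    have hyp : y ^ (2 * n - 1) ≠ 0 := pow_ne_zero _ hy0.ne'
    have hyq : y ^ (2 * n + 1) ≠ 0 := pow_ne_zero _ hy0.ne'
    have hCq : C ^ (2 * n + 1) ≠ 0 := pow_ne_zero _ hC0.ne'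
    generalize y ^ (2 * n - 1) = u at hyp ⊢
    generalize y ^ (2 * n + 1) = w at hyq ⊢
    generalize C ^ (2 * n + 1) = c at hCq ⊢
    field_simp
  · have h1 : IntegrableOn (fun y : ℝ => Fin_P Ψ C * y ^ (-(2 * n : ℝ) - 1)) (Ioi 1) := by
      refine Integrable.const_mul ?_ _
      refine integrableOn_Ioi_rpow_of_lt ?_ one_pos
      have : (0 : ℝ) < 2 * n := by positivity
      linarith
    refine h1.congr_fun (fun y hy => ?_) measurableSet_Ioi
    have hy1 : 1 < y := hy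
    have hy0 : 0 < y := by linarith
    change Fin_P Ψ C * y ^ (-(2 * n : ℝ) - 1) =
      y ^ (2 * n - 1) * (Fin_P Ψ (C * min y 1) / y ^ (4 * n))
    rw [min_eq_right hy1.le, mul_one, ← Real.rpow_natCast y (2 * n - 1),
      ← Real.rpow_natCast y (4 * n)]
    have e : -(2 * n : ℝ) - 1 = ((2 * n - 1 : ℕ) : ℝ) - ((4 * n : ℕ) : ℝ) := by
      rw [Nat.cast_sub (by omega)]
      push_cast
      ring
    rw [e, Real.rpow_sub hy0]
    ring

private theorem Fin_int {n : ℕ} (hn : n ≠ 0) {Ψ : ℝ≥0∞ → ℝ≥0∞} (hΨ : IsWeight n Ψ) {C : ℝ}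
    (hC : 1 ≤ C) : ∫⁻ h : Phase n, ENNReal.ofReal (Fin_f n Ψ C ‖h‖) < ⊤ := by
  have hdim : Module.finrank ℝ (Phase n) = 2 * n := by
    rw [finrank_euclideanSpace, Fintype.card_sum, Fintype.card_fin]
    ring
  have : Nontrivial (Phase n) := by
    apply Module.nontrivial_of_finrank_pos (R := ℝ)
    rw [hdim]
    omega
  have h1 : Integrable (fun h : Phase n => Fin_f n Ψ C ‖h‖) := by
    rw [integrable_fun_norm_addHaar, hdim]
    exact Fin_radial hn hΨ hC
  exact h1.lintegral_lt_top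

private theorem Fin_measf {n : ℕ} {Ψ : ℝ≥0∞ → ℝ≥0∞} (hΨ : IsWeight n Ψ) (C : ℝ) :
    Measurable (fun h : Phase n => ENNReal.ofReal (Fin_f n Ψ C ‖h‖)) := by
  unfold Fin_f
  have h1 : Measurable (fun h : Phase n => Fin_P Ψ (C * min ‖h‖ 1)) :=
    (Fin_meas hΨ).comp (by fun_prop)
  exact (h1.div (measurable_norm.pow_const _)).ennreal_ofReal

/-- the derivative minus the identity has compact support, is Lipschitz and bounded -/
private theorem Fin_der {n : ℕ} (φ : SympCt n) : ∃ (R C : ℝ), 0 ≤ C ∧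
    (∀ x, R < ‖x‖ → fderiv ℝ (φ : Equiv.Perm (Phase n)) x = 1) ∧
    ∀ x y, ‖fderiv ℝ (φ : Equiv.Perm (Phase n)) x - fderiv ℝ (φ : Equiv.Perm (Phase n)) y‖ ≤
      C * min ‖x - y‖ 1 := by
  obtain ⟨hφ, -, -, K, hK, hφK⟩ := φ.2
  obtain ⟨R, hR⟩ := hK.isBounded.subset_closedBall (0 : Phase n)
  have h1 : ∀ x, R < ‖x‖ → fderiv ℝ (φ : Equiv.Perm (Phase n)) x = 1 := by
    intro x hx
    have hU : {y : Phase n | R < ‖y‖} ∈ 𝓝 x := (isOpen_lt continuous_const continuous_norm).mem_nhds hx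
    have h2 : ((φ : Equiv.Perm (Phase n)) : Phase n → Phase n) =ᶠ[𝓝 x] id := by
      filter_upwards [hU] with y hy
      refine hφK y fun hyK => ?_
      have := hR hyK
      rw [mem_closedBall_zero_iff] at this
      exact absurd hy (not_lt.2 this)
    rw [h2.fderiv_eq, fderiv_id]
    rfl
  let f : Phase n → (Phase n →L[ℝ] Phase n) := fun x => fderiv ℝ (φ : Equiv.Perm (Phase n)) x - 1
  have hf : ContDiff ℝ 1 f := by
    have h2 : ContDiff ℝ 1 (fderiv ℝ (φ : Equiv.Perm (Phase n))) :=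
      hφ.fderiv_right (m := 1) (by norm_cast)
    exact h2.sub contDiff_const
  have hs : HasCompactSupport f := by
    refine HasCompactSupport.intro (isCompact_closedBall (0 : Phase n) R) fun x hx => ?_
    rw [mem_closedBall_zero_iff, not_le] at hx
    change fderiv ℝ (φ : Equiv.Perm (Phase n)) x - 1 = 0
    rw [h1 x hx, sub_self]
  obtain ⟨C₁, hC₁⟩ := hf.lipschitzWith_of_hasCompactSupport hs one_ne_zero
  obtain ⟨C₂, hC₂⟩ := hs.exists_bound_of_continuous hf.continuous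
  have hC₂0 : 0 ≤ C₂ := (norm_nonneg _).trans (hC₂ 0)
  refine ⟨R, max C₁ (2 * C₂), le_max_of_le_left C₁.2, h1, fun x y => ?_⟩
  have h3 : fderiv ℝ (φ : Equiv.Perm (Phase n)) x - fderiv ℝ (φ : Equiv.Perm (Phase n)) y =
      f x - f y := (sub_sub_sub_cancel_right _ _ _).symm
  rw [h3]
  rcases le_total ‖x - y‖ 1 with h4 | h4
  · rw [min_eq_left h4]
    have h5 := hC₁.dist_le_mul x y
    rw [dist_eq_norm, dist_eq_norm] at h5
    exact h5.trans (mul_le_mul_of_nonneg_right (le_max_left _ _) (norm_nonneg _))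
  · rw [min_eq_right h4, mul_one]
    refine (norm_sub_le _ _).trans (le_trans ?_ (le_max_right _ _))
    have h5 := hC₂ x
    have h6 := hC₂ y
    linarith

/-- Tonelli -/
private theorem Fin_tonelli {n : ℕ} {G : Phase n → ℝ≥0∞} (hG : Measurable G)
    (hI : ∫⁻ h, G h < ⊤) {B : Set (Phase n)} (hB : MeasurableSet B) (hvol : volume B < ⊤)
    {F : Phase n → Phase n → ℝ≥0∞} (hbound : ∀ x y : Phase n, F x y ≤
      B.indicator (fun _ => G (y - x)) x + B.indicator (fun _ => G (y - x)) y) :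
    ∫⁻ x, ∫⁻ y, F x y < ⊤ := by
  have hm1 : Measurable (fun q : Phase n × Phase n => G (q.2 - q.1)) :=
    hG.comp (measurable_snd.sub measurable_fst)
  have hm2 : Measurable (fun q : Phase n × Phase n =>
      B.indicator (fun _ => G (q.2 - q.1)) q.2) := by
    have h3 : (fun q : Phase n × Phase n => B.indicator (fun _ => G (q.2 - q.1)) q.2) =
        (Prod.snd ⁻¹' B).indicator (fun q : Phase n × Phase n => G (q.2 - q.1)) := by
      funext q
      by_cases hq : q.2 ∈ B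
      · rw [indicator_of_mem hq, indicator_of_mem (show q ∈ Prod.snd ⁻¹' B from hq)]
      · rw [indicator_of_notMem hq, indicator_of_notMem (show q ∉ Prod.snd ⁻¹' B from hq)]
    rw [h3]
    exact hm1.indicator (measurable_snd hB)
  have hS1 : ∫⁻ x, ∫⁻ y, B.indicator (fun _ => G (y - x)) x = (∫⁻ h, G h) * volume B := by
    have h3 : ∀ x, ∫⁻ y, B.indicator (fun _ => G (y - x)) x =
        B.indicator (fun _ => ∫⁻ h, G h) x := by
      intro x
      by_cases hx : x ∈ B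
      · simp only [indicator_of_mem hx]
        exact lintegral_sub_right_eq_self G x
      · simp only [indicator_of_notMem hx, lintegral_zero]
    simp only [h3]
    rw [lintegral_indicator_const hB]
  have hS2 : ∫⁻ x, ∫⁻ y, B.indicator (fun _ => G (y - x)) y = (∫⁻ h, G h) * volume B := by
    rw [lintegral_lintegral_swap hm2.aemeasurable]
    have h3 : ∀ y, ∫⁻ x, B.indicator (fun _ => G (y - x)) y =
        B.indicator (fun _ => ∫⁻ h, G h) y := by
      intro y
      by_cases hy : y ∈ B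
      · simp only [indicator_of_mem hy]
        exact lintegral_sub_left_eq_self G y
      · simp only [indicator_of_notMem hy, lintegral_zero]
    simp only [h3]
    rw [lintegral_indicator_const hB]
  have hfin : (∫⁻ h, G h) * volume B < ⊤ := ENNReal.mul_lt_top hI hvol
  calc ∫⁻ x, ∫⁻ y, F x y
      ≤ ∫⁻ x, ∫⁻ y, (B.indicator (fun _ => G (y - x)) x + B.indicator (fun _ => G (y - x)) y) :=
        lintegral_mono fun x => lintegral_mono fun y => hbound x y
    _ = ∫⁻ x, ((∫⁻ y, B.indicator (fun _ => G (y - x)) x) +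
          ∫⁻ y, B.indicator (fun _ => G (y - x)) y) := by
        refine lintegral_congr fun x => ?_
        refine lintegral_add_right _ ?_
        exact hm2.comp measurable_prodMk_left
    _ = (∫⁻ x, ∫⁻ y, B.indicator (fun _ => G (y - x)) x) +
          ∫⁻ x, ∫⁻ y, B.indicator (fun _ => G (y - x)) y := by
        refine lintegral_add_right _ ?_
        exact hm2.lintegral_prod_right
    _ < ⊤ := by
        rw [hS1, hS2]
        exact ENNReal.add_lt_top.2 ⟨hfin, hfin⟩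

/-- the pointwise bound -/
private theorem Fin_bound {n : ℕ} {Ψ : ℝ≥0∞ → ℝ≥0∞} (hΨ : IsWeight n Ψ) {R C : ℝ}
    {A : Phase n → (Phase n →L[ℝ] Phase n)} (h1 : ∀ x, R < ‖x‖ → A x = 1)
    (h2 : ∀ x y, ‖A x - A y‖ ≤ C * min ‖x - y‖ 1) (x y : Phase n) :
    Ψ (ENNReal.ofReal (dist (A x) (A y))) / ENNReal.ofReal (‖x - y‖ ^ (4 * n)) ≤
      (Metric.closedBall (0 : Phase n) R).indicator
        (fun _ => ENNReal.ofReal (Fin_f n Ψ C ‖y - x‖)) x +
      (Metric.closedBall (0 : Phase n) R).indicator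
        (fun _ => ENNReal.ofReal (Fin_f n Ψ C ‖y - x‖)) y := by
  rcases eq_or_ne x y with rfl | hxy
  · rw [dist_self, ENNReal.ofReal_zero, weight_zero hΨ, ENNReal.zero_div]
    exact zero_le
  · have hh : 0 < ‖x - y‖ := norm_pos_iff.2 (sub_ne_zero.2 hxy)
    have h3 : Ψ (ENNReal.ofReal (dist (A x) (A y))) / ENNReal.ofReal (‖x - y‖ ^ (4 * n)) ≤
        ENNReal.ofReal (Fin_f n Ψ C ‖y - x‖) := by
      unfold Fin_f
      rw [norm_sub_rev y x, ENNReal.ofReal_div_of_pos (pow_pos hh _), Fin_ofReal hΨ]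
      refine ENNReal.div_le_div_right (hΨ.mono ?_) _
      rw [dist_eq_norm]
      exact ENNReal.ofReal_le_ofReal (h2 x y)
    by_cases hx : x ∈ Metric.closedBall (0 : Phase n) R
    · rw [indicator_of_mem hx]
      exact h3.trans le_self_add
    · by_cases hy : y ∈ Metric.closedBall (0 : Phase n) R
      · rw [indicator_of_mem hy]
        exact h3.trans le_add_self
      · have hx' : R < ‖x‖ := by
          rw [mem_closedBall_zero_iff, not_le] at hx
          exact hx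
        have hy' : R < ‖y‖ := by
          rw [mem_closedBall_zero_iff, not_le] at hy
          exact hy
        rw [h1 x hx', h1 y hy', dist_self, ENNReal.ofReal_zero, weight_zero hΨ, ENNReal.zero_div]
        exact zero_le

/-- [F] The energies of the pairs are finite. -/
theorem thm_Fin {n : ℕ} (hn : n ≠ 0) {Ψ : ℝ≥0∞ → ℝ≥0∞} (hΨ : IsWeight n Ψ) (φ : SympCt n) :
    pairEnergy Ψ φ < ⊤ := by
  obtain ⟨R, C, hC, h1, h2⟩ := Fin_der φ
  have h3 : ∀ x y, ‖fderiv ℝ (φ : Equiv.Perm (Phase n)) x - fderiv ℝ (φ : Equiv.Perm (Phase n)) y‖ ≤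
      max C 1 * min ‖x - y‖ 1 := fun x y => (h2 x y).trans
        (mul_le_mul_of_nonneg_right (le_max_left _ _) (le_min (norm_nonneg _) zero_le_one))
  exact Fin_tonelli (Fin_measf hΨ (max C 1)) (Fin_int hn hΨ (le_max_right _ _))
    (measurableSet_closedBall (x := (0 : Phase n)) (ε := R)) measure_closedBall_lt_top
    (Fin_bound hΨ h1 h3)

/-- The name asked for: the energies of the pairs are finite. -/
theorem fin {n : ℕ} (hn : n ≠ 0) {Ψ : ℝ≥0∞ → ℝ≥0∞} (hΨ : IsWeight n Ψ) (φ : SympCt n) :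
    pairEnergy Ψ φ < ⊤ := thm_Fin hn hΨ φ

/-- the derivative is continuous -/
private theorem Fin_cont {n : ℕ} (φ : SympCt n) :
    Continuous (fun x : Phase n => fderiv ℝ (φ : Equiv.Perm (Phase n)) x) := by
  obtain ⟨hφ, -, -, -⟩ := φ.2
  have h2 : ContDiff ℝ 1 (fderiv ℝ (φ : Equiv.Perm (Phase n))) :=
    hφ.fderiv_right (m := 1) (by norm_cast)
  exact h2.continuous

/-- the density of the bad pairs -/
private noncomputable def Fin_g {n : ℕ} (φ : SympCt n) (lam : ℝ) (q : Phase n × Phase n) :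
    ℝ≥0∞ :=
  {y | lam ≤ derivDist φ q.1 y}.indicator
    (fun y => ENNReal.ofReal (1 / ‖q.1 - y‖ ^ (4 * n))) q.2

private theorem Fin_gmeas {n : ℕ} (φ : SympCt n) (lam : ℝ) : Measurable (Fin_g φ lam) := by
  have hA := Fin_cont φ
  have hd2 : Continuous fun q : Phase n × Phase n => derivDist φ q.1 q.2 :=
    (hA.comp continuous_fst).dist (hA.comp continuous_snd)
  have h1 : Fin_g φ lam = {q : Phase n × Phase n | lam ≤ derivDist φ q.1 q.2}.indicator
      (fun q => ENNReal.ofReal (1 / ‖q.1 - q.2‖ ^ (4 * n))) := by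
    funext q
    unfold Fin_g
    by_cases hq : lam ≤ derivDist φ q.1 q.2
    · rw [indicator_of_mem (show q.2 ∈ {y | lam ≤ derivDist φ q.1 y} from hq),
        indicator_of_mem (show q ∈ {q : Phase n × Phase n | lam ≤ derivDist φ q.1 q.2} from hq)]
    · rw [indicator_of_notMem (show q.2 ∉ {y | lam ≤ derivDist φ q.1 y} from hq),
        indicator_of_notMem (show q ∉ {q : Phase n × Phase n | lam ≤ derivDist φ q.1 q.2} from hq)]
  rw [h1]
  refine Measurable.indicator ?_ (isClosed_le continuous_const hd2).measurableSet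
  have h2 : Measurable fun q : Phase n × Phase n => ‖q.1 - q.2‖ :=
    (measurable_fst.sub measurable_snd).norm
  exact (measurable_const.div (h2.pow_const _)).ennreal_ofReal

/-- the bad pairs are controlled by every energy -/
theorem badPairs_le {n : ℕ} {Ψ : ℝ≥0∞ → ℝ≥0∞} (hΨ : Monotone Ψ) (φ : SympCt n) {lam : ℝ}
    (hlam : 0 < lam) : Ψ (ENNReal.ofReal lam) * badPairs lam φ ≤ pairEnergy Ψ φ := by
  have hm := Fin_gmeas φ lam
  have hp : ∀ x y, Ψ (ENNReal.ofReal lam) * Fin_g φ lam (x, y) ≤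
      Ψ (ENNReal.ofReal (derivDist φ x y)) / ENNReal.ofReal (‖x - y‖ ^ (4 * n)) := by
    intro x y
    unfold Fin_g
    by_cases hy : lam ≤ derivDist φ x y
    · rw [indicator_of_mem (show (x, y).2 ∈ {y | lam ≤ derivDist φ (x, y).1 y} from hy)]
      have hxy : x ≠ y := by
        rintro rfl
        have h1 : derivDist φ x x = 0 := dist_self _
        rw [h1] at hy
        exact absurd hlam (not_lt.2 hy)
      have hh : 0 < ‖x - y‖ ^ (4 * n) := pow_pos (norm_pos_iff.2 (sub_ne_zero.2 hxy)) _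
      rw [one_div, ENNReal.ofReal_inv_of_pos hh, ← div_eq_mul_inv]
      exact ENNReal.div_le_div_right (hΨ (ENNReal.ofReal_le_ofReal hy)) _
    · rw [indicator_of_notMem (show (x, y).2 ∉ {y | lam ≤ derivDist φ (x, y).1 y} from hy),
        mul_zero]
      exact zero_le
  have h1 : badPairs lam φ = ∫⁻ x, ∫⁻ y, Fin_g φ lam (x, y) := rfl
  rw [h1, ← lintegral_const_mul _ hm.lintegral_prod_right']
  refine lintegral_mono fun x => ?_
  change Ψ (ENNReal.ofReal lam) * ∫⁻ y, Fin_g φ lam (x, y) ≤ ∫⁻ y,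
    Ψ (ENNReal.ofReal (derivDist φ x y)) / ENNReal.ofReal (‖x - y‖ ^ (4 * n))
  have hm1 : Measurable fun y => Fin_g φ lam (x, y) := hm.comp measurable_prodMk_left
  rw [← lintegral_const_mul _ hm1]
  exact lintegral_mono fun y => hp x y

/-- the number of bad pairs is finite -/
theorem badPairs_lt_top {n : ℕ} (hn : n ≠ 0) (φ : SympCt n) {lam : ℝ} (hlam : 0 < lam) :
    badPairs lam φ < ⊤ := by
  let Ψ : ℝ≥0∞ → ℝ≥0∞ := fun t => min 1 (t ^ (2 * n + 1))
  have hΨ : IsWeight n Ψ := by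
    refine ⟨fun a b h => min_le_min le_rfl (pow_le_pow_left' h _), fun t ht => ?_, fun t _ => ?_, ?_⟩
    · exact lt_min one_pos (ENNReal.pow_pos ht _)
    · exact lt_of_le_of_lt (min_le_left _ _) ENNReal.one_lt_top
    · refine lt_of_le_of_lt (b := ∫⁻ r in Ioc (0 : ℝ) 1, 1) ?_ ?_
      · refine setLIntegral_mono measurable_const fun r hr => ?_
        refine (ENNReal.div_le_div_right (min_le_right _ _) _).trans ?_
        rw [← ENNReal.ofReal_pow hr.1.le]
        exact ENNReal.div_self_le_one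
      · rw [lintegral_one, Measure.restrict_apply_univ]
        exact measure_Ioc_lt_top
  have h1 := (badPairs_le hΨ.mono φ hlam).trans_lt (fin hn hΨ φ)
  have h2 : Ψ (ENNReal.ofReal lam) ≠ 0 := (hΨ.pos _ (ENNReal.ofReal_pos.2 hlam)).ne'
  by_contra h3
  rw [not_lt, top_le_iff] at h3
  rw [h3, ENNReal.mul_top h2] at h1
  exact lt_irrefl _ h1

/-- the number of bad pairs as one integral (this is `bp lam (fderiv ℝ φ)`) -/
theorem badPairs_eq {n : ℕ} (φ : SympCt n) {lam : ℝ} (hlam : 0 < lam) :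
    ∫⁻ q : Phase n × Phase n, {q : Phase n × Phase n |
        lam ≤ ‖fderiv ℝ (φ : Equiv.Perm (Phase n)) q.1 -
          fderiv ℝ (φ : Equiv.Perm (Phase n)) q.2‖}.indicator 1 q / ‖q.1 - q.2‖ₑ ^ (4 * n) =
      badPairs lam φ := by
  have h1 : badPairs lam φ = ∫⁻ q : Phase n × Phase n, Fin_g φ lam q := by
    rw [Measure.volume_eq_prod, lintegral_prod _ (Fin_gmeas φ lam).aemeasurable]
    rfl
  rw [h1]
  refine lintegral_congr fun q => ?_
  obtain ⟨x, y⟩ := q
  have e : derivDist φ x y = ‖fderiv ℝ (φ : Equiv.Perm (Phase n)) x -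
      fderiv ℝ (φ : Equiv.Perm (Phase n)) y‖ := dist_eq_norm _ _
  unfold Fin_g
  by_cases hy : lam ≤ derivDist φ x y
  · have hy' : lam ≤ ‖fderiv ℝ (φ : Equiv.Perm (Phase n)) x -
      fderiv ℝ (φ : Equiv.Perm (Phase n)) y‖ := by
      rw [← e]
      exact hy
    rw [indicator_of_mem (show (x, y).2 ∈ {y | lam ≤ derivDist φ (x, y).1 y} from hy),
      indicator_of_mem (show (x, y) ∈ {q : Phase n × Phase n |
        lam ≤ ‖fderiv ℝ (φ : Equiv.Perm (Phase n)) q.1 -
          fderiv ℝ (φ : Equiv.Perm (Phase n)) q.2‖} from hy')]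
    have hxy : x ≠ y := by
      rintro rfl
      have h1 : derivDist φ x x = 0 := dist_self _
      rw [h1] at hy
      exact absurd hlam (not_lt.2 hy)
    have hh0 : 0 < ‖x - y‖ := norm_pos_iff.2 (sub_ne_zero.2 hxy)
    have hh : 0 < ‖x - y‖ ^ (4 * n) := pow_pos hh0 _
    rw [Pi.one_apply, one_div, one_div, ENNReal.ofReal_inv_of_pos hh, ENNReal.ofReal_pow hh0.le,
      ofReal_norm]
  · have hy' : ¬ lam ≤ ‖fderiv ℝ (φ : Equiv.Perm (Phase n)) x -
      fderiv ℝ (φ : Equiv.Perm (Phase n)) y‖ := by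
      rw [← e]
      exact hy
    rw [indicator_of_notMem (show (x, y).2 ∉ {y | lam ≤ derivDist φ (x, y).1 y} from hy),
      indicator_of_notMem (show (x, y) ∉ {q : Phase n × Phase n |
        lam ≤ ‖fderiv ℝ (φ : Equiv.Perm (Phase n)) q.1 -
          fderiv ℝ (φ : Equiv.Perm (Phase n)) q.2‖} from hy'), ENNReal.zero_div]

/-- the number of bad pairs is finite (this is `bp lam (fderiv ℝ φ) < ⊤`) -/
theorem fin_bp {n : ℕ} (hn : n ≠ 0) (φ : SympCt n) {lam : ℝ} (hlam : 0 < lam) :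
    ∫⁻ q : Phase n × Phase n, {q : Phase n × Phase n |
        lam ≤ ‖fderiv ℝ (φ : Equiv.Perm (Phase n)) q.1 -
          fderiv ℝ (φ : Equiv.Perm (Phase n)) q.2‖}.indicator 1 q / ‖q.1 - q.2‖ₑ ^ (4 * n) < ⊤ := by
  rw [badPairs_eq φ hlam]
  exact badPairs_lt_top hn φ hlam

end Pool.Agent.BPR
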