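import Pool.Agent.BPR.Chain

/-!
# BPR [O]: the oscillation is controlled by the number of bad pairs
-/

set_option autoImplicit false
set_option maxSynthPendingDepth 3

open scoped ContDiff Topology ENNReal
open Set Function Filter MeasureTheory

namespace Pool.Agent.BPR

open Pool.Agent.Helper17 Pool.Agent.CEF

variable {n : ℕ}

/-- dyadic decomposition of a power -/
theorem Osc_dyadic (m : ℕ) {lam : ℝ} (hl : 0 < lam) {t : ℝ} (ht : 0 ≤ t) :
    ENNReal.ofReal t ^ m ≤ ENNReal.ofReal (lam ^ m) *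
      (1 + ∑' j : ℕ, (2 ^ m) ^ (j + 1) *
        {r : ℝ | ((2 ^ j : ℕ) : ℝ) * lam ≤ r}.indicator (1 : ℝ → ℝ≥0∞) t) := by
  rcases lt_or_ge t lam with h | h
  · calc ENNReal.ofReal t ^ m = ENNReal.ofReal (t ^ m) := (ENNReal.ofReal_pow ht m).symm
      _ ≤ ENNReal.ofReal (lam ^ m) :=
          ENNReal.ofReal_le_ofReal (pow_le_pow_left₀ ht h.le m)
      _ = ENNReal.ofReal (lam ^ m) * 1 := (mul_one _).symm
      _ ≤ _ := by gcongr; exact le_self_add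
  · have h1 : 1 ≤ t / lam := by rwa [le_div_iff₀ hl, one_mul]
    have h2 : ⌊t / lam⌋₊ ≠ 0 := by
      have := Nat.floor_pos.2 h1
      omega
    set j := Nat.log 2 ⌊t / lam⌋₊ with hj
    have h3 : ((2 ^ j : ℕ) : ℝ) ≤ t / lam :=
      (Nat.cast_le.2 (Nat.pow_log_le_self 2 h2)).trans (Nat.floor_le (by positivity))
    have h4 : t / lam < ((2 ^ (j + 1) : ℕ) : ℝ) := by
      have h5 : ⌊t / lam⌋₊ < 2 ^ (j + 1) := Nat.lt_pow_succ_log_self (by norm_num) _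
      have h6 := Nat.lt_floor_add_one (t / lam)
      have h7 : (⌊t / lam⌋₊ : ℝ) + 1 ≤ ((2 ^ (j + 1) : ℕ) : ℝ) := by exact_mod_cast h5
      linarith
    have h5 : t ≤ 2 ^ (j + 1) * lam := by
      rw [div_lt_iff₀ hl] at h4
      push_cast at h4
      exact h4.le
    have h6 : t ∈ {r : ℝ | ((2 ^ j : ℕ) : ℝ) * lam ≤ r} := by
      show ((2 ^ j : ℕ) : ℝ) * lam ≤ t
      rwa [le_div_iff₀ hl] at h3
    calc ENNReal.ofReal t ^ m = ENNReal.ofReal (t ^ m) := (ENNReal.ofReal_pow ht m).symm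
      _ ≤ ENNReal.ofReal ((2 ^ (j + 1) * lam) ^ m) :=
          ENNReal.ofReal_le_ofReal (pow_le_pow_left₀ ht h5 m)
      _ = ENNReal.ofReal (lam ^ m) * (2 ^ m) ^ (j + 1) := by
          have e : (2 ^ (j + 1) * lam) ^ m = lam ^ m * (2 ^ m) ^ (j + 1) := by ring
          rw [e, ENNReal.ofReal_mul (by positivity)]
          congr 1
          rw [ENNReal.ofReal_pow (by positivity), ENNReal.ofReal_pow (by norm_num),
            ENNReal.ofReal_ofNat]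
      _ = ENNReal.ofReal (lam ^ m) * ((2 ^ m) ^ (j + 1) *
            {r : ℝ | ((2 ^ j : ℕ) : ℝ) * lam ≤ r}.indicator (1 : ℝ → ℝ≥0∞) t) := by
          rw [indicator_of_mem h6, Pi.one_apply, mul_one]
      _ ≤ _ := by
          gcongr
          refine le_trans ?_ le_add_self
          exact ENNReal.le_tsum (f := fun j : ℕ => ((2 : ℝ≥0∞) ^ m) ^ (j + 1) *
            {r : ℝ | ((2 ^ j : ℕ) : ℝ) * lam ≤ r}.indicator (1 : ℝ → ℝ≥0∞) t) j

/-- the oscillation, from the chain estimate -/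
theorem Osc_main (m : ℕ) (hm : m + 1 ≤ 2 * n - 1) {A : Phase n → Phase n →L[ℝ] Phase n}
    (hA : Continuous A) (x : Phase n) (s : ℝ) {lam : ℝ} (hl : 0 < lam)
    (hC : ∀ k : ℕ, 1 ≤ k → (k : ℝ≥0∞) ^ (2 * n - 1) *
      volume {q : Phase n × Phase n | q ∈ Frc_S n (-1) ∧
        k * lam ≤ ‖A (x + s • q.1) - A (x + s • q.2)‖} ≤ 16 ^ n * bp lam A) :
    ∫⁻ q in Frc_S n (-1), ‖A (x + s • q.1) - A (x + s • q.2)‖ₑ ^ m ≤
      ENNReal.ofReal (lam ^ m) *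
        (ENNReal.ofReal (Frc_v n ^ 2) + 2 ^ (m + 1) * (16 ^ n * bp lam A)) := by
  have hcont : Continuous fun q : Phase n × Phase n =>
      ‖A (x + s • q.1) - A (x + s • q.2)‖ := by fun_prop
  have hE : ∀ j : ℕ, MeasurableSet {q : Phase n × Phase n |
      ((2 ^ j : ℕ) : ℝ) * lam ≤ ‖A (x + s • q.1) - A (x + s • q.2)‖} := fun j =>
    (isClosed_le continuous_const hcont).measurableSet
  have hterm : ∀ j : ℕ, ((2 : ℝ≥0∞) ^ m) ^ (j + 1) *
      volume ({q : Phase n × Phase n | ((2 ^ j : ℕ) : ℝ) * lam ≤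
        ‖A (x + s • q.1) - A (x + s • q.2)‖} ∩ Frc_S n (-1)) ≤
      2 ^ m * (16 ^ n * bp lam A) * (2 : ℝ≥0∞)⁻¹ ^ j := by
    intro j
    have h1 := hC (2 ^ j) (Nat.one_le_two_pow)
    have h2 : {q : Phase n × Phase n | ((2 ^ j : ℕ) : ℝ) * lam ≤
        ‖A (x + s • q.1) - A (x + s • q.2)‖} ∩ Frc_S n (-1) =
        {q : Phase n × Phase n | q ∈ Frc_S n (-1) ∧
          ((2 ^ j : ℕ) : ℝ) * lam ≤ ‖A (x + s • q.1) - A (x + s • q.2)‖} := by
      ext q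
      simp only [mem_inter_iff, mem_ofPred_eq]
      exact and_comm
    rw [h2]
    set V := volume {q : Phase n × Phase n | q ∈ Frc_S n (-1) ∧
          ((2 ^ j : ℕ) : ℝ) * lam ≤ ‖A (x + s • q.1) - A (x + s • q.2)‖} with hV
    have h3 : ((2 : ℝ≥0∞) ^ j) ^ (m + 1) * V ≤ 16 ^ n * bp lam A := by
      refine le_trans ?_ h1
      push_cast
      gcongr
      exact one_le_pow₀ (by norm_num : (1 : ℝ≥0∞) ≤ 2)
    have h4 : (2 : ℝ≥0∞) ^ j * (2 : ℝ≥0∞)⁻¹ ^ j = 1 := by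
      rw [← mul_pow, ENNReal.mul_inv_cancel (by norm_num) (by norm_num), one_pow]
    calc ((2 : ℝ≥0∞) ^ m) ^ (j + 1) * V
        = ((2 : ℝ≥0∞) ^ m) ^ (j + 1) * V * ((2 : ℝ≥0∞) ^ j * (2 : ℝ≥0∞)⁻¹ ^ j) := by
          rw [h4, mul_one]
      _ = 2 ^ m * (((2 : ℝ≥0∞) ^ j) ^ (m + 1) * V) * (2 : ℝ≥0∞)⁻¹ ^ j := by ring
      _ ≤ _ := by gcongr
  calc ∫⁻ q in Frc_S n (-1), ‖A (x + s • q.1) - A (x + s • q.2)‖ₑ ^ m
      ≤ ∫⁻ q in Frc_S n (-1), ENNReal.ofReal (lam ^ m) *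
        (1 + ∑' j : ℕ, (2 ^ m) ^ (j + 1) *
          {q : Phase n × Phase n | ((2 ^ j : ℕ) : ℝ) * lam ≤
            ‖A (x + s • q.1) - A (x + s • q.2)‖}.indicator
            (1 : Phase n × Phase n → ℝ≥0∞) q) := by
        apply lintegral_mono
        intro q
        have h1 := Osc_dyadic m hl (norm_nonneg (A (x + s • q.1) - A (x + s • q.2)))
        rw [ofReal_norm] at h1
        exact h1
    _ = ENNReal.ofReal (lam ^ m) * (volume (Frc_S n (-1)) + ∑' j : ℕ, (2 ^ m) ^ (j + 1) *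
          volume ({q : Phase n × Phase n | ((2 ^ j : ℕ) : ℝ) * lam ≤
            ‖A (x + s • q.1) - A (x + s • q.2)‖} ∩ Frc_S n (-1))) := by
        rw [lintegral_const_mul' _ _ ENNReal.ofReal_ne_top, lintegral_add_left measurable_const,
          setLIntegral_const, one_mul, lintegral_tsum]
        · congr 2
          apply tsum_congr
          intro j
          rw [lintegral_const_mul _ (measurable_one.indicator (hE j)),
            lintegral_indicator_one (hE j), Measure.restrict_apply (hE j)]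
        · intro j
          exact ((measurable_one.indicator (hE j)).const_mul _).aemeasurable
    _ ≤ ENNReal.ofReal (lam ^ m) * (ENNReal.ofReal (Frc_v n ^ 2) +
          ∑' j : ℕ, 2 ^ m * (16 ^ n * bp lam A) * (2 : ℝ≥0∞)⁻¹ ^ j) := by
        gcongr ENNReal.ofReal (lam ^ m) * (?_ + ?_)
        · exact Frc_volS n (-1)
        · exact ENNReal.tsum_le_tsum hterm
    _ = _ := by
        rw [ENNReal.tsum_mul_left, ENNReal.tsum_geometric, ENNReal.one_sub_inv_two, inv_inv]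
        ring

/-- **O4** -/
theorem Osc_four (hn : 3 ≤ n) {A : Phase n → Phase n →L[ℝ] Phase n} (hA : Continuous A)
    (x : Phase n) (s : ℝ)
    (hC : ∀ k : ℕ, 1 ≤ k → (k : ℝ≥0∞) ^ (2 * n - 1) *
      volume {q : Phase n × Phase n | q ∈ Frc_S n (-1) ∧
        k * 1 ≤ ‖A (x + s • q.1) - A (x + s • q.2)‖} ≤ 16 ^ n * bp 1 A) :
    ∫⁻ q in Frc_S n (-1), ‖A (x + s • q.1) - A (x + s • q.2)‖ₑ ^ 4 ≤
      ENNReal.ofReal (Frc_v n ^ 2) + 2 * 16 ^ (n + 1) * bp 1 A := by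
  refine (Osc_main 4 (by omega) hA x s one_pos hC).trans (le_of_eq ?_)
  rw [one_pow, ENNReal.ofReal_one, one_mul, pow_succ (16 : ℝ≥0∞) n]
  ring

/-- **O2** -/
theorem Osc_two (hn : 2 ≤ n) {A : Phase n → Phase n →L[ℝ] Phase n} (hA : Continuous A)
    (x : Phase n) (s : ℝ) {lam : ℝ} (hl : 0 < lam)
    (hC : ∀ k : ℕ, 1 ≤ k → (k : ℝ≥0∞) ^ (2 * n - 1) *
      volume {q : Phase n × Phase n | q ∈ Frc_S n (-1) ∧
        k * lam ≤ ‖A (x + s • q.1) - A (x + s • q.2)‖} ≤ 16 ^ n * bp lam A) :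
    ∫⁻ q in Frc_S n (-1), ‖A (x + s • q.1) - A (x + s • q.2)‖ₑ ^ 2 ≤
      ENNReal.ofReal (lam ^ 2) *
        (ENNReal.ofReal (Frc_v n ^ 2) + 8 * 16 ^ n * bp lam A) := by
  refine (Osc_main 2 (by omega) hA x s hl hC).trans (le_of_eq ?_)
  ring

theorem O4 (hn : 3 ≤ n) {A : Phase n → Phase n →L[ℝ] Phase n} (hA : Continuous A)
    (x : Phase n) {s : ℝ} (hs : 0 < s) :
    ∫⁻ q in Frc_S n (-1), ‖A (x + s • q.1) - A (x + s • q.2)‖ₑ ^ 4 ≤
      ENNReal.ofReal (Frc_v n ^ 2) + 2 * 16 ^ (n + 1) * bp 1 A :=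
  Osc_four hn hA x s fun k hk => chain (by omega) hA x hs one_pos k hk

theorem O2 (hn : 2 ≤ n) {A : Phase n → Phase n →L[ℝ] Phase n} (hA : Continuous A)
    (x : Phase n) {s : ℝ} (hs : 0 < s) {lam : ℝ} (hl : 0 < lam) :
    ∫⁻ q in Frc_S n (-1), ‖A (x + s • q.1) - A (x + s • q.2)‖ₑ ^ 2 ≤
      ENNReal.ofReal (lam ^ 2) *
        (ENNReal.ofReal (Frc_v n ^ 2) + 8 * 16 ^ n * bp lam A) :=
  Osc_two hn hA x s hl fun k hk => chain (by omega) hA x hs hl k hk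

end Pool.Agent.BPR
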