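import Pool.Agent.BPR.Base

/-!
# BPR [P]: bounds for the numbers of bad pairs control the map
-/

set_option autoImplicit false
set_option maxSynthPendingDepth 3

open scoped ContDiff Topology ENNReal
open Set Function Filter MeasureTheory

namespace Pool.Agent.BPR

open Pool.Agent.Helper17 Pool.Agent.CEF

variable {n : ℕ}

/-- the bad pairs in a ball, after scaling -/
theorem bp_pw {A : Phase n → Phase n →L[ℝ] Phase n} (hA : Continuous A) (x : Phase n) {s : ℝ}
    (hs : 0 < s) {lam : ℝ} (hl : 0 < lam) (d : ℝ) :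
    volume {q : Phase n × Phase n | q ∈ Frc_S n d ∧
        lam ≤ ‖A (x + s • q.1) - A (x + s • q.2)‖} ≤
      ENNReal.ofReal (16 ^ n) * ∫⁻ q in Frc_U x s d, bpG lam A q := by
  have e0 : (16 : ℝ) ^ n = 2 ^ (4 * n) := by rw [pow_mul]; norm_num
  set B : Set (Phase n × Phase n) := {q | q ∈ Frc_S n d ∧
        lam ≤ ‖A (x + s • q.1) - A (x + s • q.2)‖} with hB
  have hG : Measurable fun q : Phase n × Phase n =>
      bpG lam A (x + s • q.1, x + s • q.2) := (measurable_bpG lam hA).comp (by fun_prop)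
  have h1 : ∀ q ∈ B, (1 : ℝ≥0∞) ≤
      ENNReal.ofReal ((2 * s) ^ (4 * n)) * bpG lam A (x + s • q.1, x + s • q.2) := by
    rintro q ⟨⟨h1, h2, -⟩, hbad⟩
    have h0 : q.1 ≠ q.2 := by
      intro h0
      rw [h0, sub_self] at hbad
      have h00 : ‖(0 : Phase n →L[ℝ] Phase n)‖ = 0 := ContinuousLinearMap.opNorm_zero
      rw [h00] at hbad
      linarith
    have h3 : (x + s • q.1) - (x + s • q.2) = s • (q.1 - q.2) := by
      rw [add_sub_add_left_eq_sub, smul_sub]
    have h4 : ‖(x + s • q.1) - (x + s • q.2)‖ₑ ^ (4 * n) ≤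
        ENNReal.ofReal ((2 * s) ^ (4 * n)) := by
      rw [ENNReal.ofReal_pow (by positivity)]
      apply pow_le_pow_left'
      rw [h3, ← ofReal_norm, norm_smul, Real.norm_eq_abs, abs_of_pos hs]
      apply ENNReal.ofReal_le_ofReal
      have := norm_sub_le q.1 q.2
      nlinarith
    have h5 : ‖(x + s • q.1) - (x + s • q.2)‖ₑ ^ (4 * n) ≠ 0 := by
      apply pow_ne_zero
      rw [h3, enorm_ne_zero]
      exact smul_ne_zero hs.ne' (sub_ne_zero.mpr h0)
    have h6 : ‖(x + s • q.1) - (x + s • q.2)‖ₑ ^ (4 * n) ≠ ⊤ := by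
      apply ENNReal.pow_ne_top
      exact enorm_ne_top
    have h7 : bpG lam A (x + s • q.1, x + s • q.2) =
        1 / ‖(x + s • q.1) - (x + s • q.2)‖ₑ ^ (4 * n) := by
      unfold bpG
      rw [indicator_of_mem (show (x + s • q.1, x + s • q.2) ∈ bpS lam A from hbad)]
      rfl
    rw [h7]
    calc (1 : ℝ≥0∞) = ‖(x + s • q.1) - (x + s • q.2)‖ₑ ^ (4 * n) *
          (1 / ‖(x + s • q.1) - (x + s • q.2)‖ₑ ^ (4 * n)) := by
          rw [ENNReal.mul_div_cancel h5 h6]
      _ ≤ _ := by gcongr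
  calc volume B = ∫⁻ _ in B, (1 : ℝ≥0∞) := by rw [setLIntegral_one]
    _ ≤ ∫⁻ q in B, ENNReal.ofReal ((2 * s) ^ (4 * n)) *
          bpG lam A (x + s • q.1, x + s • q.2) := by
        apply setLIntegral_mono (hG.const_mul _)
        exact h1
    _ ≤ ∫⁻ q in Frc_S n d, ENNReal.ofReal ((2 * s) ^ (4 * n)) *
          bpG lam A (x + s • q.1, x + s • q.2) :=
        lintegral_mono_set fun q hq => hq.1
    _ = ENNReal.ofReal ((2 * s) ^ (4 * n)) *
          ∫⁻ q in Frc_S n d, bpG lam A (x + s • q.1, x + s • q.2) := by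
        rw [lintegral_const_mul _ hG]
    _ = ENNReal.ofReal (16 ^ n) * (ENNReal.ofReal (s ^ (4 * n)) *
          ∫⁻ q in Frc_S n d, bpG lam A (x + s • q.1, x + s • q.2)) := by
        rw [mul_pow, ← e0, ENNReal.ofReal_mul (by positivity), mul_assoc]
    _ = _ := by rw [Frc_scale (measurable_bpG lam hA) x hs d]

/-- the elementary inequality -/
theorem pack_ineq {K lam : ℝ} (hK : 0 < K) (hl : 0 < lam) (t : ℝ≥0∞) :
    t ^ 2 ≤ ENNReal.ofReal K⁻¹ * t ^ 4 + ENNReal.ofReal (lam ^ 2) ∨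
      (t ^ 2 ≤ ENNReal.ofReal K ∧ ENNReal.ofReal lam ≤ t) := by
  by_cases h : t ^ 2 ≤ ENNReal.ofReal K
  · by_cases h2 : ENNReal.ofReal lam ≤ t
    · exact Or.inr ⟨h, h2⟩
    · left
      refine le_trans ?_ le_add_self
      rw [ENNReal.ofReal_pow hl.le]
      exact pow_le_pow_left' (not_le.1 h2).le 2
  · left
    refine le_trans ?_ le_self_add
    have h1 : ENNReal.ofReal K⁻¹ * ENNReal.ofReal K = 1 := by
      rw [← ENNReal.ofReal_mul (by positivity), inv_mul_cancel₀ hK.ne', ENNReal.ofReal_one]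
    calc t ^ 2 = ENNReal.ofReal K⁻¹ * (ENNReal.ofReal K * t ^ 2) := by
          rw [← mul_assoc, h1, one_mul]
      _ ≤ ENNReal.ofReal K⁻¹ * (t ^ 2 * t ^ 2) := by
          have h2 := (not_le.1 h).le
          gcongr
      _ = ENNReal.ofReal K⁻¹ * t ^ 4 := by rw [← pow_add]

/-- a box with oscillation at least `ε` contains many bad pairs at distance at least `d s` -/
theorem pack_box {A : Phase n → Phase n →L[ℝ] Phase n} (hA : Continuous A) (x : Phase n) {s : ℝ}
    {K lam d : ℝ} (hK : 0 < K) (hl : 0 < lam) :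
    ∫⁻ q in Frc_S n (-1), ‖A (x + s • q.1) - A (x + s • q.2)‖ₑ ^ 2 ≤
      ENNReal.ofReal K⁻¹ *
        (∫⁻ q in Frc_S n (-1), ‖A (x + s • q.1) - A (x + s • q.2)‖ₑ ^ 4) +
      (ENNReal.ofReal (lam ^ 2) * volume (Frc_S n (-1)) +
      (ENNReal.ofReal K * volume (Frc_S n (-1) \ Frc_S n d) +
      ENNReal.ofReal K * volume {q : Phase n × Phase n | q ∈ Frc_S n d ∧
        lam ≤ ‖A (x + s • q.1) - A (x + s • q.2)‖})) := by
  set B : Set (Phase n × Phase n) := {q | q ∈ Frc_S n d ∧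
        lam ≤ ‖A (x + s • q.1) - A (x + s • q.2)‖} with hB
  have hc : Continuous fun q : Phase n × Phase n => A (x + s • q.1) - A (x + s • q.2) := by
    fun_prop
  have hBm : MeasurableSet B :=
    (Frc_measS d).inter (isClosed_le continuous_const hc.norm).measurableSet
  have hNm : MeasurableSet (Frc_S n (-1) \ Frc_S n d) := (Frc_measS (-1)).diff (Frc_measS d)
  have hf4 : Measurable fun q : Phase n × Phase n =>
      ‖A (x + s • q.1) - A (x + s • q.2)‖ₑ ^ 4 := hc.enorm.measurable.pow_const 4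
  have hpt : ∀ q ∈ Frc_S n (-1), ‖A (x + s • q.1) - A (x + s • q.2)‖ₑ ^ 2 ≤
      ENNReal.ofReal K⁻¹ * ‖A (x + s • q.1) - A (x + s • q.2)‖ₑ ^ 4 +
      (ENNReal.ofReal (lam ^ 2) +
      (ENNReal.ofReal K * (Frc_S n (-1) \ Frc_S n d).indicator 1 q +
      ENNReal.ofReal K * B.indicator 1 q)) := by
    intro q hq
    rcases pack_ineq hK hl (‖A (x + s • q.1) - A (x + s • q.2)‖ₑ) with h | ⟨h1, h2⟩
    · rw [← add_assoc]
      exact h.trans le_self_add
    · refine le_trans ?_ le_add_self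
      refine le_trans ?_ le_add_self
      by_cases hqd : q ∈ Frc_S n d
      · have hqB : q ∈ B := by
          refine ⟨hqd, ?_⟩
          rw [← ofReal_norm] at h2
          exact (ENNReal.ofReal_le_ofReal_iff (norm_nonneg _)).1 h2
        rw [indicator_of_mem hqB]
        refine le_trans ?_ le_add_self
        rw [Pi.one_apply, mul_one]
        exact h1
      · have hqN : q ∈ Frc_S n (-1) \ Frc_S n d := ⟨hq, hqd⟩
        rw [indicator_of_mem hqN]
        refine le_trans ?_ le_self_add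
        rw [Pi.one_apply, mul_one]
        exact h1
  have hm1 : Measurable fun q : Phase n × Phase n =>
      ENNReal.ofReal K * (Frc_S n (-1) \ Frc_S n d).indicator (1 : Phase n × Phase n → ℝ≥0∞) q :=
    (measurable_one.indicator hNm).const_mul _
  have hm2 : Measurable fun q : Phase n × Phase n =>
      ENNReal.ofReal K * B.indicator (1 : Phase n × Phase n → ℝ≥0∞) q :=
    (measurable_one.indicator hBm).const_mul _
  calc ∫⁻ q in Frc_S n (-1), ‖A (x + s • q.1) - A (x + s • q.2)‖ₑ ^ 2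
      ≤ ∫⁻ q in Frc_S n (-1), (ENNReal.ofReal K⁻¹ *
          ‖A (x + s • q.1) - A (x + s • q.2)‖ₑ ^ 4 +
        (ENNReal.ofReal (lam ^ 2) +
        (ENNReal.ofReal K * (Frc_S n (-1) \ Frc_S n d).indicator 1 q +
        ENNReal.ofReal K * B.indicator 1 q))) := by
        apply setLIntegral_mono
        · exact (hf4.const_mul _).add (measurable_const.add (hm1.add hm2))
        · exact hpt
    _ = ENNReal.ofReal K⁻¹ *
        (∫⁻ q in Frc_S n (-1), ‖A (x + s • q.1) - A (x + s • q.2)‖ₑ ^ 4) +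
        (ENNReal.ofReal (lam ^ 2) * volume (Frc_S n (-1)) +
        (ENNReal.ofReal K * (∫⁻ q in Frc_S n (-1), (Frc_S n (-1) \ Frc_S n d).indicator 1 q) +
        ENNReal.ofReal K * (∫⁻ q in Frc_S n (-1), B.indicator 1 q))) := by
        rw [lintegral_add_left (hf4.const_mul _), lintegral_const_mul _ hf4,
          lintegral_add_left measurable_const, setLIntegral_const,
          lintegral_add_left hm1, lintegral_const_mul _ (measurable_one.indicator hNm),
          lintegral_const_mul _ (measurable_one.indicator hBm)]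
    _ ≤ _ := by
        have e1 : ∫⁻ q in Frc_S n (-1), (Frc_S n (-1) \ Frc_S n d).indicator
            (1 : Phase n × Phase n → ℝ≥0∞) q ≤ volume (Frc_S n (-1) \ Frc_S n d) := by
          refine (setLIntegral_le_lintegral _ _).trans ?_
          rw [lintegral_indicator_one hNm]
        have e2 : ∫⁻ q in Frc_S n (-1), B.indicator
            (1 : Phase n × Phase n → ℝ≥0∞) q ≤ volume B := by
          refine (setLIntegral_le_lintegral _ _).trans ?_
          rw [lintegral_indicator_one hBm]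
        gcongr

theorem tendsto_volume_closedBall (hn : 1 ≤ n) :
    Tendsto (fun d : ℝ => volume (Metric.closedBall (0 : Phase n) d)) (𝓝[>] 0) (𝓝 0) := by
  have h1 : ∀ d : ℝ, 0 < d → volume (Metric.closedBall (0 : Phase n) d) =
      ENNReal.ofReal (d ^ (2 * n)) * volume (Metric.closedBall (0 : Phase n) 1) := by
    intro d hd
    have hfr : Module.finrank ℝ (Phase n) = 2 * n := by
      rw [finrank_euclideanSpace, Fintype.card_sum, Fintype.card_fin]
      ring
    have h2 := Measure.addHaar_closedBall_mul (volume : Measure (Phase n)) 0 hd.le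
      (zero_le_one)
    rw [mul_one, hfr] at h2
    exact h2
  have h3 : Tendsto (fun d : ℝ => ENNReal.ofReal (d ^ (2 * n)) *
      volume (Metric.closedBall (0 : Phase n) 1)) (𝓝[>] 0) (𝓝 0) := by
    have h4 : Tendsto (fun d : ℝ => ENNReal.ofReal (d ^ (2 * n))) (𝓝[>] 0) (𝓝 0) := by
      have h5 : Tendsto (fun d : ℝ => d ^ (2 * n)) (𝓝[>] 0) (𝓝 0) := by
        have h6 : Tendsto (fun d : ℝ => d ^ (2 * n)) (𝓝 0) (𝓝 (0 ^ (2 * n))) :=
          (continuous_pow (2 * n)).tendsto 0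
        rw [zero_pow (by omega)] at h6
        exact h6.mono_left nhdsWithin_le_nhds
      have h7 := ENNReal.tendsto_ofReal h5
      rwa [ENNReal.ofReal_zero] at h7
    have h8 := ENNReal.Tendsto.mul_const (b := volume (Metric.closedBall (0 : Phase n) 1)) h4
      (Or.inr measure_closedBall_lt_top.ne)
    rwa [zero_mul] at h8
  refine h3.congr' ?_
  filter_upwards [self_mem_nhdsWithin] with d hd
  exact (h1 d hd).symm

/-- **[P]** -/
theorem pack (hn : 3 ≤ n)
    (hO4 : ∀ (A : Phase n → Phase n →L[ℝ] Phase n), Continuous A → ∀ (x : Phase n) (s : ℝ),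
      0 < s → ∫⁻ q in Frc_S n (-1), ‖A (x + s • q.1) - A (x + s • q.2)‖ₑ ^ 4 ≤
        ENNReal.ofReal (Frc_v n ^ 2) + 2 * 16 ^ (n + 1) * bp 1 A)
    (V : ℝ → ℝ) :
    ∃ (c : ℝ) (N : ℝ → ℕ) (δ : ℝ → ℝ), (∀ ε, 0 < ε → 0 < δ ε ∧ δ ε ≤ 1) ∧
      ∀ φ : SympCt n, (∀ lam, 0 < lam →
        bp lam (fderiv ℝ (φ : Equiv.Perm (Phase n))) ≤ ENNReal.ofReal (V lam)) →
        Ctrl c N δ (φ : Equiv.Perm (Phase n)) := by
  have hv := Frc_v_pos n
  have hball := tendsto_volume_closedBall (n := n) (by omega)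
  obtain ⟨W, hW0, hVW⟩ : ∃ W : ℝ → ℝ, (∀ lam, 0 ≤ W lam) ∧
      ∀ lam, ENNReal.ofReal (V lam) = ENNReal.ofReal (W lam) := by
    refine ⟨fun lam => max (V lam) 0, fun lam => le_max_right _ _, fun lam => ?_⟩
    rcases le_total (V lam) 0 with h | h
    · show _ = ENNReal.ofReal (max (V lam) 0)
      rw [max_eq_right h, ENNReal.ofReal_of_nonpos h, ENNReal.ofReal_zero]
    · show _ = ENNReal.ofReal (max (V lam) 0)
      rw [max_eq_left h]
  obtain ⟨c, hc⟩ : ∃ c : ℝ, c = Frc_v n ^ 2 + 2 * 16 ^ (n + 1) * W 1 := ⟨_, rfl⟩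
  have hc0 : 0 < c := by
    have := hW0 1
    rw [hc]
    positivity
  have hosc4 : ∀ φ : SympCt n, (∀ lam, 0 < lam →
        bp lam (fderiv ℝ (φ : Equiv.Perm (Phase n))) ≤ ENNReal.ofReal (V lam)) →
        ∀ (x : Phase n) (s : ℝ), 0 < s → ∫⁻ q in Frc_S n (-1),
          ‖fderiv ℝ (φ : Equiv.Perm (Phase n)) (x + s • q.1) -
            fderiv ℝ (φ : Equiv.Perm (Phase n)) (x + s • q.2)‖ₑ ^ 4 ≤ ENNReal.ofReal c := by
    intro φ hφ x s hs
    refine (hO4 _ (Frc_cont φ) x s hs).trans ?_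
    have h1 := hφ 1 one_pos
    rw [hVW] at h1
    calc ENNReal.ofReal (Frc_v n ^ 2) + 2 * 16 ^ (n + 1) *
          bp 1 (fderiv ℝ (φ : Equiv.Perm (Phase n)))
        ≤ ENNReal.ofReal (Frc_v n ^ 2) + 2 * 16 ^ (n + 1) * ENNReal.ofReal (W 1) := by gcongr
      _ = ENNReal.ofReal c := by
        have h2 : (2 * 16 ^ (n + 1) : ℝ≥0∞) = ENNReal.ofReal (2 * 16 ^ (n + 1)) := by
          rw [ENNReal.ofReal_mul (by norm_num), ENNReal.ofReal_pow (by norm_num)]
          norm_num
        rw [h2, ← ENNReal.ofReal_mul (by positivity), ← ENNReal.ofReal_add (by positivity)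
          (mul_nonneg (by positivity) (hW0 1)), hc]
  have key : ∀ ε : ℝ, ∃ (N : ℕ) (δ : ℝ), 0 < ε → (0 < δ ∧ δ ≤ 1) ∧ ∀ φ : SympCt n,
      (∀ lam, 0 < lam →
        bp lam (fderiv ℝ (φ : Equiv.Perm (Phase n))) ≤ ENNReal.ofReal (V lam)) →
      ∀ bs : List (Phase n × ℝ), (∀ b ∈ bs, 0 < b.2 ∧
        ENNReal.ofReal ε ≤ osc 2 (φ : Equiv.Perm (Phase n)) b.1 b.2) →
      bs.Pairwise (fun a b => ¬Related δ a b) → bs.length ≤ N := by
    intro ε
    by_cases hε : 0 < ε
    swap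
    · exact ⟨0, 1, fun h => absurd h hε⟩
    obtain ⟨K, hKdef⟩ : ∃ K : ℝ, K = 4 * c / ε := ⟨_, rfl⟩
    have hK : 0 < K := by rw [hKdef]; positivity
    have hKc : K⁻¹ * c = ε / 4 := by
      rw [hKdef]
      field_simp
    obtain ⟨lam, hl, hlam⟩ : ∃ lam : ℝ, 0 < lam ∧ lam ^ 2 * Frc_v n ^ 2 = ε / 4 := by
      refine ⟨√ε / (2 * Frc_v n), by positivity, ?_⟩
      rw [div_pow, Real.sq_sqrt hε.le]
      field_simp
      norm_num
    obtain ⟨d, hd0, hd1, hd⟩ : ∃ d : ℝ, 0 < d ∧ d ≤ 1 ∧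
        ENNReal.ofReal K * (ENNReal.ofReal (Frc_v n) *
          volume (Metric.closedBall (0 : Phase n) d)) ≤ ENNReal.ofReal (ε / 4) := by
      have h1 : Tendsto (fun d : ℝ => ENNReal.ofReal K * (ENNReal.ofReal (Frc_v n) *
          volume (Metric.closedBall (0 : Phase n) d))) (𝓝[>] 0) (𝓝 0) := by
        have h2 := ENNReal.Tendsto.const_mul (a := ENNReal.ofReal (Frc_v n)) hball
          (Or.inr ENNReal.ofReal_ne_top)
        rw [mul_zero] at h2
        have h3 := ENNReal.Tendsto.const_mul (a := ENNReal.ofReal K) h2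
          (Or.inr ENNReal.ofReal_ne_top)
        rwa [mul_zero] at h3
      have h4 : ∀ᶠ d : ℝ in 𝓝[>] 0, ENNReal.ofReal K * (ENNReal.ofReal (Frc_v n) *
          volume (Metric.closedBall (0 : Phase n) d)) < ENNReal.ofReal (ε / 4) :=
        h1.eventually_lt_const (by rw [ENNReal.ofReal_pos]; positivity)
      have h5 : ∀ᶠ d : ℝ in 𝓝[>] 0, d ∈ Ioc (0 : ℝ) 1 :=
        Ioc_mem_nhdsGT one_pos
      obtain ⟨d, h6, h7⟩ := (h4.and h5).exists
      exact ⟨d, h7.1, h7.2, h6.le⟩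
    obtain ⟨c₁, hc₁⟩ : ∃ c₁ : ℝ, c₁ = ε / 4 / (K * 16 ^ n) := ⟨_, rfl⟩
    have hc₁0 : 0 < c₁ := by rw [hc₁]; positivity
    refine ⟨⌊W lam / c₁⌋₊, d / 2, fun _ => ⟨⟨by positivity, by linarith⟩, ?_⟩⟩
    intro φ hφ bs hbs hpair
    have hA := Frc_cont φ
    have hmass : ∀ b ∈ bs, ENNReal.ofReal c₁ ≤
        ∫⁻ q in Frc_U b.1 b.2 d, bpG lam (fderiv ℝ (φ : Equiv.Perm (Phase n))) q := by
      intro b hb
      obtain ⟨hb0, hb1⟩ := hbs b hb
      rw [Frc_osc 2 hA] at hb1
      have h1 := hb1.trans (pack_box hA b.1 (s := b.2) (d := d) hK hl)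
      have h2 : ENNReal.ofReal K⁻¹ * (∫⁻ q in Frc_S n (-1),
          ‖fderiv ℝ (φ : Equiv.Perm (Phase n)) (b.1 + b.2 • q.1) -
            fderiv ℝ (φ : Equiv.Perm (Phase n)) (b.1 + b.2 • q.2)‖ₑ ^ 4) ≤
          ENNReal.ofReal (ε / 4) := by
        refine (mul_le_mul_right (hosc4 φ hφ b.1 b.2 hb0) _).trans ?_
        rw [← ENNReal.ofReal_mul (by positivity), hKc]
      have h3 : ENNReal.ofReal (lam ^ 2) * volume (Frc_S n (-1)) ≤ ENNReal.ofReal (ε / 4) := by
        refine (mul_le_mul_right (Frc_volS n (-1)) _).trans ?_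
        rw [← ENNReal.ofReal_mul (by positivity), hlam]
      have h4 : ENNReal.ofReal K * volume (Frc_S n (-1) \ Frc_S n d) ≤
          ENNReal.ofReal (ε / 4) := (mul_le_mul_right (Frc_near n d) _).trans hd
      have h5 : ENNReal.ofReal (ε / 4) ≤ ENNReal.ofReal K * volume {q : Phase n × Phase n |
          q ∈ Frc_S n d ∧ lam ≤ ‖fderiv ℝ (φ : Equiv.Perm (Phase n)) (b.1 + b.2 • q.1) -
            fderiv ℝ (φ : Equiv.Perm (Phase n)) (b.1 + b.2 • q.2)‖} := by
        have e1 : ENNReal.ofReal ε = ENNReal.ofReal (ε / 4) + (ENNReal.ofReal (ε / 4) +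
            (ENNReal.ofReal (ε / 4) + ENNReal.ofReal (ε / 4))) := by
          rw [← ENNReal.ofReal_add (by positivity) (by positivity),
            ← ENNReal.ofReal_add (by positivity) (by positivity),
            ← ENNReal.ofReal_add (by positivity) (by positivity)]
          congr 1
          ring
        rw [e1] at h1
        have h6 := h1.trans (add_le_add h2 (add_le_add h3 (add_le_add h4 le_rfl)))
        have h7 := (ENNReal.add_le_add_iff_left ENNReal.ofReal_ne_top).1 h6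
        have h8 := (ENNReal.add_le_add_iff_left ENNReal.ofReal_ne_top).1 h7
        exact (ENNReal.add_le_add_iff_left ENNReal.ofReal_ne_top).1 h8
      have h6 : ENNReal.ofReal (ε / 4) ≤ ENNReal.ofReal (K * 16 ^ n) *
          ∫⁻ q in Frc_U b.1 b.2 d, bpG lam (fderiv ℝ (φ : Equiv.Perm (Phase n))) q := by
        refine h5.trans ?_
        rw [ENNReal.ofReal_mul hK.le, mul_assoc]
        exact mul_le_mul_right (bp_pw hA b.1 hb0 hl d) _
      have h7 : ENNReal.ofReal (ε / 4) = ENNReal.ofReal (K * 16 ^ n) * ENNReal.ofReal c₁ := by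
        rw [← ENNReal.ofReal_mul (by positivity), hc₁]
        congr 1
        field_simp
      rw [h7] at h6
      exact (ENNReal.mul_le_mul_iff_right (by
        rw [Ne, ENNReal.ofReal_eq_zero, not_le]
        positivity) ENNReal.ofReal_ne_top).1 h6
    have hsum := Frc_sum bs (fun b hb => (hbs b hb).1) hmass hpair
    have h5 : (bs.length : ℝ≥0∞) * ENNReal.ofReal c₁ ≤ ENNReal.ofReal (W lam) := by
      rw [← hVW]
      exact hsum.trans ((setLIntegral_le_lintegral _ _).trans (hφ lam hl))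
    have h6 : (bs.length : ℝ) * c₁ ≤ W lam := by
      rw [← ENNReal.ofReal_natCast, ← ENNReal.ofReal_mul (by positivity),
        ENNReal.ofReal_le_ofReal_iff (hW0 lam)] at h5
      exact h5
    apply Nat.le_floor
    rw [le_div_iff₀ hc₁0]
    exact h6
  choose N δ hNδ using key
  refine ⟨c, N, δ, fun ε hε => (hNδ ε hε).1, fun φ hφ => ⟨fun x s hs => ?_,
    fun ε hε bs hbs hpair => (hNδ ε hε).2 φ hφ bs hbs hpair⟩⟩
  rw [Frc_osc 4 (Frc_cont φ)]
  exact hosc4 φ hφ x s hs

end Pool.Agent.BPR
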