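import Mathlib
import Pool.Agent.CEF.Sub
import Pool.Agent.BPR.Defs

open scoped ContDiff Topology ENNReal
open Set Function TopologicalSpace MeasureTheory

namespace Pool.Agent.BPR

open Pool.Agent.Helper17 Pool.Agent.CEF

variable {n : ℕ}

/-- The integrand of the pair energy. -/
noncomputable def fr (Ψ : ℝ≥0∞ → ℝ≥0∞) (φ : SympCt n) (x y : Phase n) : ℝ≥0∞ :=
  Ψ ‖fderiv ℝ (φ : Equiv.Perm (Phase n)) x - fderiv ℝ (φ : Equiv.Perm (Phase n)) y‖ₑ /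
    ‖x - y‖ₑ ^ (4 * n)

theorem pairEnergy_eq (Ψ : ℝ≥0∞ → ℝ≥0∞) (φ : SympCt n) :
    pairEnergy Ψ φ = ∫⁻ x, ∫⁻ y, fr Ψ φ x y := by
  have h : ∀ x y : Phase n, Ψ (ENNReal.ofReal (derivDist φ x y)) /
      ENNReal.ofReal (‖x - y‖ ^ (4 * n)) = fr Ψ φ x y := by
    intro x y
    rw [fr, derivDist, deriv1, deriv1, dist_eq_norm, ofReal_norm, ENNReal.ofReal_pow (norm_nonneg _),
      ofReal_norm]
  simp only [pairEnergy, h]

theorem hessEnergy_eq (φ : SympCt n) :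
    hessEnergy φ = ∫⁻ x, ‖fderiv ℝ (fderiv ℝ (φ : Equiv.Perm (Phase n))) x‖ₑ ^ (2 * n) := by
  have h : ∀ x : Phase n, ENNReal.ofReal (hessNorm φ x ^ (2 * n)) =
      ‖fderiv ℝ (fderiv ℝ (φ : Equiv.Perm (Phase n))) x‖ₑ ^ (2 * n) := by
    intro x
    rw [hessNorm, ENNReal.ofReal_pow (norm_nonneg _), ← norm_iteratedFDeriv_fderiv,
      norm_iteratedFDeriv_one, ofReal_norm]
  simp only [hessEnergy, h]

lemma fr_translate {ψ ψ' : SympCt n} {v : Phase n} (Ψ : ℝ≥0∞ → ℝ≥0∞)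
    (h : ∀ x, (ψ' : Equiv.Perm (Phase n)) x = v + (ψ : Equiv.Perm (Phase n)) (x - v)) :
    ∫⁻ x, ∫⁻ y, fr Ψ ψ' x y = ∫⁻ x, ∫⁻ y, fr Ψ ψ x y := by
  have h1 : ∀ x, fderiv ℝ (ψ' : Equiv.Perm (Phase n)) x =
      fderiv ℝ (ψ : Equiv.Perm (Phase n)) (x - v) := by
    intro x
    have h2 : ((ψ' : Equiv.Perm (Phase n)) : Phase n → Phase n) = fun x =>
        v + (ψ : Equiv.Perm (Phase n)) (x - v) := funext h
    rw [h2]
    exact Sub_fderiv_translate ψ v v x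
  have h2 : ∀ x y, fr Ψ ψ' x y = fr Ψ ψ (x - v) (y - v) := by
    intro x y
    simp only [fr, h1, sub_sub_sub_cancel_right]
  simp only [h2]
  have h3 : ∀ x, ∫⁻ y, fr Ψ ψ (x - v) (y - v) = ∫⁻ y, fr Ψ ψ (x - v) y := fun x =>
    lintegral_sub_right_eq_self (fun y => fr Ψ ψ (x - v) y) v
  simp only [h3]
  exact lintegral_sub_right_eq_self (fun x => ∫⁻ y, fr Ψ ψ x y) v

lemma fr_meas {Ψ : ℝ≥0∞ → ℝ≥0∞} (hΨ : Monotone Ψ) (φ : SympCt n) :
    Measurable (fun q : Phase n × Phase n => fr Ψ φ q.1 q.2) := by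
  have hc : Continuous (fderiv ℝ (φ : Equiv.Perm (Phase n))) :=
    (SympCt.contDiff φ).continuous_fderiv (by simp)
  have h1 : Measurable (fun q : Phase n × Phase n =>
      ‖fderiv ℝ (φ : Equiv.Perm (Phase n)) q.1 - fderiv ℝ (φ : Equiv.Perm (Phase n)) q.2‖ₑ) :=
    ((hc.comp continuous_fst).sub (hc.comp continuous_snd)).enorm.measurable
  have h2 : Measurable (fun q : Phase n × Phase n => ‖q.1 - q.2‖ₑ) :=
    (continuous_fst.sub continuous_snd).enorm.measurable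
  exact (hΨ.measurable.comp h1).div (h2.pow_const _)

lemma fr_mix {φ ψ : SympCt n} {K K' : Set (Phase n)} {Ψ : ℝ≥0∞ → ℝ≥0∞} (hΨ : Monotone Ψ)
    (hK : IsClosed K)
    (hK' : IsClosed K') (hφ : ∀ x ∉ K, (φ : Equiv.Perm (Phase n)) x = x)
    (hψ : ∀ x ∉ K', (ψ : Equiv.Perm (Phase n)) x = x) (hd : Disjoint K K')
    {d : ℝ} (hdist : ∀ x ∈ K, ∀ y ∈ K', d ≤ ‖x - y‖) {C : ℝ}
    (hC : ∀ x y, ‖fderiv ℝ (φ : Equiv.Perm (Phase n)) x -
      fderiv ℝ (ψ : Equiv.Perm (Phase n)) y‖ ≤ C) (x y : Phase n) :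
    fr Ψ (φ * ψ) x y ≤ fr Ψ φ x y + (fr Ψ ψ x y +
      ((K ×ˢ K' ∪ K' ×ˢ K).indicator
        (fun _ => Ψ (ENNReal.ofReal C) / ENNReal.ofReal d ^ (4 * n)) (x, y))) := by
  have key : fderiv ℝ ((φ * ψ : SympCt n) : Equiv.Perm (Phase n)) x -
      fderiv ℝ ((φ * ψ : SympCt n) : Equiv.Perm (Phase n)) y =
      (fderiv ℝ (φ : Equiv.Perm (Phase n)) x - fderiv ℝ (φ : Equiv.Perm (Phase n)) y) +
      (fderiv ℝ (ψ : Equiv.Perm (Phase n)) x - fderiv ℝ (ψ : Equiv.Perm (Phase n)) y) := by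
    rw [Sub_fderiv hφ hψ hd, Sub_fderiv hφ hψ hd]
    abel
  have bound : ∀ D : Phase n →L[ℝ] Phase n, ‖D‖ ≤ C → d ≤ ‖x - y‖ →
      Ψ ‖D‖ₑ / ‖x - y‖ₑ ^ (4 * n) ≤ Ψ (ENNReal.ofReal C) / ENNReal.ofReal d ^ (4 * n) := by
    intro D hD hxy
    rw [← ofReal_norm, ← ofReal_norm]
    exact ENNReal.div_le_div (hΨ (ENNReal.ofReal_le_ofReal hD))
      (pow_le_pow_left' (ENNReal.ofReal_le_ofReal hxy) _)
  by_cases hA : x ∉ K' ∧ y ∉ K'
  · have h1 : fr Ψ (φ * ψ) x y = fr Ψ φ x y := by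
      simp only [fr]
      rw [key, Sub_fderiv_off hK' hψ hA.1, Sub_fderiv_off hK' hψ hA.2, sub_self, add_zero]
    rw [h1]
    exact le_self_add
  by_cases hB : x ∉ K ∧ y ∉ K
  · have h1 : fr Ψ (φ * ψ) x y = fr Ψ ψ x y := by
      simp only [fr]
      rw [key, Sub_fderiv_off hK hφ hB.1, Sub_fderiv_off hK hφ hB.2, sub_self, zero_add]
    rw [h1]
    exact le_self_add.trans le_add_self
  have hcase : (x ∈ K ∧ y ∈ K') ∨ (x ∈ K' ∧ y ∈ K) := by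
    have hd' := Set.disjoint_left.1 hd
    by_cases h1 : x ∈ K
    · left
      refine ⟨h1, ?_⟩
      by_contra h2
      exact hA ⟨hd' h1, h2⟩
    · right
      have h2 : y ∈ K := by
        by_contra h3
        exact hB ⟨h1, h3⟩
      refine ⟨?_, h2⟩
      by_contra h3
      exact hA ⟨h3, hd' h2⟩
  have hmem : (x, y) ∈ K ×ˢ K' ∪ K' ×ˢ K := by
    rcases hcase with h | h
    · exact Or.inl h
    · exact Or.inr h
  rw [Set.indicator_of_mem hmem]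
  refine le_trans ?_ (le_add_self.trans le_add_self)
  simp only [fr]
  rw [key]
  rcases hcase with ⟨h1, h2⟩ | ⟨h1, h2⟩
  · have h3 : x ∉ K' := fun h => Set.disjoint_left.1 hd h1 h
    have h4 : y ∉ K := fun h => Set.disjoint_left.1 hd h h2
    refine bound _ ?_ (hdist x h1 y h2)
    rw [Sub_fderiv_off hK' hψ h3, Sub_fderiv_off hK hφ h4]
    have h5 := hC x y
    rwa [sub_add_sub_cancel]
  · have h3 : x ∉ K := fun h => Set.disjoint_left.1 hd h h1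
    have h4 : y ∉ K' := fun h => Set.disjoint_left.1 hd h2 h
    refine bound _ ?_ (by rw [norm_sub_rev]; exact hdist y h2 x h1)
    rw [Sub_fderiv_off hK' hψ h4, Sub_fderiv_off hK hφ h3]
    have h5 := hC y x
    rw [add_comm, sub_add_sub_cancel, norm_sub_rev]
    exact h5

/-- Energy of a product with distant supports. -/
lemma fr_energy {φ ψ : SympCt n} {K K' : Set (Phase n)} {Ψ : ℝ≥0∞ → ℝ≥0∞} (hΨ : Monotone Ψ)
    (hK : IsClosed K)
    (hK' : IsClosed K') (hφ : ∀ x ∉ K, (φ : Equiv.Perm (Phase n)) x = x)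
    (hψ : ∀ x ∉ K', (ψ : Equiv.Perm (Phase n)) x = x) (hd : Disjoint K K')
    {d : ℝ} (hdist : ∀ x ∈ K, ∀ y ∈ K', d ≤ ‖x - y‖) {C : ℝ}
    (hC : ∀ x y, ‖fderiv ℝ (φ : Equiv.Perm (Phase n)) x -
      fderiv ℝ (ψ : Equiv.Perm (Phase n)) y‖ ≤ C) :
    (∫⁻ x, ∫⁻ y, fr Ψ (φ * ψ) x y) ≤ (∫⁻ x, ∫⁻ y, fr Ψ φ x y) +
      ((∫⁻ x, ∫⁻ y, fr Ψ ψ x y) + (Ψ (ENNReal.ofReal C) / ENNReal.ofReal d ^ (4 * n)) *
        (2 * (volume K * volume K'))) := by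
  have h1 := Sub_int (fr_meas hΨ φ) (fr_meas hΨ ψ)
    (fr_mix hΨ hK hK' hφ hψ hd hdist hC)
  have h2 := Sub_ind hK.measurableSet hK'.measurableSet
    (Ψ (ENNReal.ofReal C) / ENNReal.ofReal d ^ (4 * n))
  exact h1.trans (add_le_add_right (add_le_add_right h2 _) _)

/-- Distant translates: for every `η > 0` the product `φ ψ` lies in the component of a map with
energies at most the sum of the energies plus `η`. -/
theorem sub' (hn : n ≠ 0) {Ψ : ℝ≥0∞ → ℝ≥0∞} (hΨ : Monotone Ψ) (hΨ' : ∀ t, t < ⊤ → Ψ t < ⊤)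
    (φ ψ : SympCt n) {η : ℝ≥0∞} (hη : 0 < η) :
    ∃ χ : SympCt n, Joined (φ * ψ) χ ∧
      (∫⁻ x, ‖fderiv ℝ (fderiv ℝ (χ : Equiv.Perm (Phase n))) x‖ₑ ^ (2 * n)) ≤
        (∫⁻ x, ‖fderiv ℝ (fderiv ℝ (φ : Equiv.Perm (Phase n))) x‖ₑ ^ (2 * n)) +
        (∫⁻ x, ‖fderiv ℝ (fderiv ℝ (ψ : Equiv.Perm (Phase n))) x‖ₑ ^ (2 * n)) ∧
      (∫⁻ x, ∫⁻ y, fr Ψ χ x y) ≤ (∫⁻ x, ∫⁻ y, fr Ψ φ x y) +
        (∫⁻ x, ∫⁻ y, fr Ψ ψ x y) + η := by
  obtain ⟨K₁, hK₁, hφ⟩ := φ.2.2.2.2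
  obtain ⟨K₂, hK₂, hψ⟩ := ψ.2.2.2.2
  obtain ⟨R, hR⟩ := (hK₁.union hK₂).isBounded.subset_closedBall 0
  have hφB : ∀ x ∉ Metric.closedBall (0 : Phase n) R, (φ : Equiv.Perm (Phase n)) x = x :=
    fun x hx => hφ x fun h => hx (hR (Or.inl h))
  have hψB : ∀ x ∉ Metric.closedBall (0 : Phase n) R, (ψ : Equiv.Perm (Phase n)) x = x :=
    fun x hx => hψ x fun h => hx (hR (Or.inr h))
  obtain ⟨C, hC⟩ : ∃ C : ℝ, ∀ x y, ‖fderiv ℝ (φ : Equiv.Perm (Phase n)) x -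
      fderiv ℝ (ψ : Equiv.Perm (Phase n)) y‖ ≤ C := by
    have h1 : ∀ χ : SympCt n, ∃ C : ℝ, ∀ x, ‖fderiv ℝ (χ : Equiv.Perm (Phase n)) x‖ ≤ C := by
      intro χ
      obtain ⟨K, hK, hχ⟩ := χ.2.2.2.2
      have hc : Continuous (fderiv ℝ (χ : Equiv.Perm (Phase n))) :=
        (SympCt.contDiff χ).continuous_fderiv (by simp)
      obtain ⟨C, hC⟩ := hK.exists_bound_of_continuousOn hc.continuousOn
      refine ⟨max C ‖ContinuousLinearMap.id ℝ (Phase n)‖, fun x => ?_⟩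
      by_cases hx : x ∈ K
      · exact (hC x hx).trans (le_max_left _ _)
      · rw [Sub_fderiv_off hK.isClosed hχ hx]
        exact le_max_right _ _
    obtain ⟨C₁, h₁⟩ := h1 φ
    obtain ⟨C₂, h₂⟩ := h1 ψ
    exact ⟨C₁ + C₂, fun x y => (norm_sub_le _ _).trans (add_le_add (h₁ x) (h₂ y))⟩
  set V : ℝ≥0∞ := volume (Metric.closedBall (0 : Phase n) R) with hV
  have hVtop : V ≠ ⊤ := measure_closedBall_lt_top.ne
  set A : ℝ≥0∞ := Ψ (ENNReal.ofReal C) with hA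
  have hAtop : A ≠ ⊤ := (hΨ' _ ENNReal.ofReal_lt_top).ne
  have hW : A * (2 * (V * V)) ≠ ⊤ := ENNReal.mul_ne_top hAtop
    (ENNReal.mul_ne_top (by simp) (ENNReal.mul_ne_top hVtop hVtop))
  obtain ⟨m, hm⟩ := ENNReal.exists_nat_gt (ENNReal.div_ne_top hW hη.ne')
  have hm' : A * (2 * (V * V)) ≤ m * η := by
    rw [← ENNReal.div_le_iff_le_mul (Or.inl hη.ne') (Or.inr ?_)]
    · exact hm.le
    · exact ENNReal.natCast_ne_top m |> fun h => by
        rcases eq_or_ne (m : ℝ≥0∞) 0 with h0 | h0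
        · rw [h0] at hm
          exact absurd hm (not_lt.2 zero_le)
        · exact h0
  set d : ℝ := m + 1 with hd
  have hd1 : (1 : ℝ) ≤ d := by
    have : (0 : ℝ) ≤ m := Nat.cast_nonneg m
    linarith
  obtain ⟨v, hv⟩ : ∃ v : Phase n, ‖v‖ = 2 * |R| + d := by
    have : Nonempty (Fin n ⊕ Fin n) := ⟨Sum.inl ⟨0, Nat.pos_of_ne_zero hn⟩⟩
    exact exists_norm_eq (Phase n) (by positivity)
  obtain ⟨ψ', hj, hψ'⟩ := Sub_translate ψ v
  have hψB' : ∀ x ∉ Metric.closedBall v R, (ψ' : Equiv.Perm (Phase n)) x = x := by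
    intro x hx
    rw [hψ', hψB (x - v) ?_]
    · abel
    · intro h
      apply hx
      rw [mem_closedBall_zero_iff] at h
      rwa [Metric.mem_closedBall, dist_eq_norm]
  have hdist : ∀ x ∈ Metric.closedBall (0 : Phase n) R, ∀ y ∈ Metric.closedBall v R,
      d ≤ ‖x - y‖ := by
    intro x hx y hy
    rw [mem_closedBall_zero_iff] at hx
    rw [Metric.mem_closedBall, dist_eq_norm] at hy
    have h1 : ‖v‖ ≤ ‖x‖ + ‖x - y‖ + ‖y - v‖ := by
      have h2 : v = x - (x - y) - (y - v) := by abel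
      calc ‖v‖ = ‖x - (x - y) - (y - v)‖ := by rw [← h2]
        _ ≤ ‖x - (x - y)‖ + ‖y - v‖ := norm_sub_le _ _
        _ ≤ _ := add_le_add_left (norm_sub_le _ _) _
    have h3 := le_abs_self R
    linarith
  have hdisj : Disjoint (Metric.closedBall (0 : Phase n) R) (Metric.closedBall v R) := by
    rw [Set.disjoint_left]
    intro x hx hy
    have h1 := hdist x hx x hy
    rw [sub_self, norm_zero] at h1
    linarith
  have hC' : ∀ x y, ‖fderiv ℝ (φ : Equiv.Perm (Phase n)) x -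
      fderiv ℝ (ψ' : Equiv.Perm (Phase n)) y‖ ≤ C := by
    intro x y
    have h2 : ((ψ' : Equiv.Perm (Phase n)) : Phase n → Phase n) = fun x =>
        v + (ψ : Equiv.Perm (Phase n)) (x - v) := funext hψ'
    rw [h2, Sub_fderiv_translate ψ v v y]
    exact hC x _
  refine ⟨φ * ψ', hj.mul_left' φ, ?_, ?_⟩
  · rw [← Sub_energy2_translate hψ']
    exact Sub_energy2 Metric.isClosed_closedBall Metric.isClosed_closedBall hφB hψB' hdisj
  · refine (fr_energy hΨ Metric.isClosed_closedBall Metric.isClosed_closedBall hφB hψB' hdisj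
      hdist hC').trans ?_
    rw [fr_translate Ψ hψ', ← add_assoc]
    refine add_le_add_right ?_ _
    rw [Measure.addHaar_closedBall_center volume v R]
    rw [← hV, ← hA, ← ENNReal.mul_div_right_comm]
    apply ENNReal.div_le_of_le_mul
    refine hm'.trans ?_
    rw [mul_comm]
    refine mul_le_mul_right ?_ η
    have h1 : (1 : ℝ≥0∞) ≤ ENNReal.ofReal d := by
      rw [← ENNReal.ofReal_one]
      exact ENNReal.ofReal_le_ofReal hd1
    calc (m : ℝ≥0∞) ≤ ENNReal.ofReal d := by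
          rw [← ENNReal.ofReal_natCast]
          exact ENNReal.ofReal_le_ofReal (by rw [hd]; linarith)
      _ ≤ ENNReal.ofReal d ^ (4 * n) := le_self_pow₀ h1 (by omega)

/-- The energies of a product are at most the sum of the energies, up to isotopy and `η`. -/
theorem sub (hn : n ≠ 0) {Ψ : ℝ≥0∞ → ℝ≥0∞} (hΨ : IsWeight n Ψ) (φ ψ : SympCt n) {η : ℝ≥0∞}
    (hη : 0 < η) : ∃ χ : SympCt n, Joined (φ * ψ) χ ∧ hessEnergy χ ≤ hessEnergy φ + hessEnergy ψ ∧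
      pairEnergy Ψ χ ≤ pairEnergy Ψ φ + pairEnergy Ψ ψ + η := by
  obtain ⟨χ, h1, h2, h3⟩ := sub' hn hΨ.mono hΨ.lt_top φ ψ hη
  refine ⟨χ, h1, ?_, ?_⟩
  · rw [hessEnergy_eq, hessEnergy_eq, hessEnergy_eq]
    exact h2
  · rw [pairEnergy_eq, pairEnergy_eq, pairEnergy_eq]
    exact h3

end Pool.Agent.BPR
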