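import Mathlib
import Pool.Agent.CEF.Main
import Pool.Agent.BPR.Defs
import Pool.Agent.BPR.Osc
import Pool.Agent.BPR.Pack
import Pool.Agent.BPR.Fin
import Pool.Agent.BPR.Sub

/-!
# Bad pairs: the gap, the finiteness theorem and the proper lengths
-/

open scoped ContDiff Topology ENNReal
open Set Function TopologicalSpace MeasureTheory

namespace Pool.Agent.BPR

open Pool.Agent.Helper17 Pool.Agent.CEF

variable {n : ℕ}

theorem infOn_hess (c : ZerothHomotopy (SympCt n)) :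
    infOn hessEnergy c = minEnergy (2 * (n : ℝ)) c := by
  unfold infOn minEnergy
  congr 1
  funext φ
  unfold critEnergy hessEnergy
  rw [if_pos rfl]

theorem bp_eq (φ : SympCt n) {lam : ℝ} (hlam : 0 < lam) :
    bp lam (fderiv ℝ (φ : Equiv.Perm (Phase n))) = badPairs lam φ := badPairs_eq φ hlam

/-- **The gap.** -/
theorem gap_bad (hn : 3 ≤ n) : ∃ ε₀ : ℝ, 0 < ε₀ ∧ ∃ v₀ : ℝ, 0 < v₀ ∧ ∀ φ : SympCt n,
    badPairs ε₀ φ ≤ ENNReal.ofReal v₀ → ZerothHomotopy.mk φ = ZerothHomotopy.mk 1 := by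
  have hn0 : n ≠ 0 := by omega
  obtain ⟨ε₁, hε₁, hvar⟩ := var n
  have hv := Frc_v_pos n
  -- the threshold
  set lam : ℝ := Real.sqrt (ε₁ / (2 * Frc_v n ^ 2)) with hlam
  have hl : 0 < lam := Real.sqrt_pos.2 (by positivity)
  have hl2 : lam ^ 2 = ε₁ / (2 * Frc_v n ^ 2) := Real.sq_sqrt (by positivity)
  set v₀ : ℝ := ε₁ / (2 * (lam ^ 2 * (8 * 16 ^ n))) with hv₀
  have hv₀0 : 0 < v₀ := by positivity
  refine ⟨lam, hl, v₀, hv₀0, fun φ hφ => ?_⟩
  have hA := Frc_cont φ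
  have hosc : ∀ x s, 0 < s → osc 2 (φ : Equiv.Perm (Phase n)) x s ≤ ENNReal.ofReal ε₁ := by
    intro x s hs
    rw [Frc_osc 2 hA]
    refine (O2 (by omega) hA x hs hl).trans ?_
    rw [bp_eq φ hl]
    calc ENNReal.ofReal (lam ^ 2) * (ENNReal.ofReal (Frc_v n ^ 2) + 8 * 16 ^ n * badPairs lam φ)
        ≤ ENNReal.ofReal (lam ^ 2) * (ENNReal.ofReal (Frc_v n ^ 2) +
          8 * 16 ^ n * ENNReal.ofReal v₀) := by gcongr
      _ = ENNReal.ofReal (lam ^ 2 * (Frc_v n ^ 2 + 8 * 16 ^ n * v₀)) := by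
          have e1 : (8 * 16 ^ n : ℝ≥0∞) = ENNReal.ofReal (8 * 16 ^ n) := by
            rw [ENNReal.ofReal_mul (by norm_num), ENNReal.ofReal_pow (by norm_num)]
            norm_num
          rw [e1, ← ENNReal.ofReal_mul (by positivity), ← ENNReal.ofReal_add (by positivity)
            (by positivity), ← ENNReal.ofReal_mul (by positivity)]
      _ = ENNReal.ofReal ε₁ := by
          congr 1
          have e2 : lam ^ 2 * (8 * 16 ^ n * v₀) = ε₁ / 2 := by
            rw [hv₀]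
            have : lam ^ 2 ≠ 0 := by positivity
            field_simp
          have e3 : lam ^ 2 * Frc_v n ^ 2 = ε₁ / 2 := by
            rw [hl2]
            field_simp
          rw [mul_add, e2, e3]
          ring
  exact ZerothHomotopy.sound (thm_Gap n hn0 φ fun x s hs => hvar φ x s hs (hosc x s hs)).somePath

/-- **Finiteness.** -/
theorem finite_bad (hn : 3 ≤ n) (V : ℝ → ℝ≥0∞) (hV : ∀ ε, 0 < ε → V ε ≠ ⊤) :
    {c : ZerothHomotopy (SympCt n) | ∃ φ : SympCt n, ZerothHomotopy.mk φ = c ∧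
      ∀ ε, 0 < ε → badPairs ε φ ≤ V ε}.Finite := by
  have hn0 : n ≠ 0 := by omega
  obtain ⟨c, N, δ, hδ, hctrl⟩ := pack hn (fun A hA x s hs => O4 hn hA x hs)
    (fun lam => (V lam).toReal)
  obtain ⟨F, hF, h1⟩ := abs' n hn0 c N δ hδ
  refine (hF.image (fun g => ZerothHomotopy.mk g)).subset ?_
  rintro cl ⟨φ, rfl, hφ⟩
  obtain ⟨g, hg, hj⟩ := h1 φ (hctrl φ fun lam hlam => by
    rw [bp_eq φ hlam, ENNReal.ofReal_toReal (hV lam hlam)]
    exact hφ lam hlam)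
  exact ⟨g, hg, ZerothHomotopy.sound (hj.symm).somePath⟩

theorem infOn_mk_le (E : SympCt n → ℝ≥0∞) (φ : SympCt n) :
    infOn E (ZerothHomotopy.mk φ) ≤ E φ :=
  iInf_le (fun ψ : {ψ : SympCt n // ZerothHomotopy.mk ψ = ZerothHomotopy.mk φ} => E ψ.1) ⟨φ, rfl⟩

theorem pairEnergy_one {Ψ : ℝ≥0∞ → ℝ≥0∞} (hΨ : IsWeight n Ψ) :
    pairEnergy Ψ (1 : SympCt n) = 0 := by
  have h1 : ∀ x y : Phase n, derivDist (1 : SympCt n) x y = 0 := by
    intro x y
    have h2 : ∀ z : Phase n, deriv1 (1 : SympCt n) z = ContinuousLinearMap.id ℝ (Phase n) := by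
      intro z
      exact fderiv_id
    unfold derivDist
    rw [h2, h2, dist_self]
  unfold pairEnergy
  simp only [h1, ENNReal.ofReal_zero, weight_zero hΨ, ENNReal.zero_div, lintegral_zero]

/-- **Proper lengths.** -/
theorem properLength_pair (hn : 3 ≤ n) {Ψ : ℝ≥0∞ → ℝ≥0∞} (hΨ : IsWeight n Ψ) :
    IsProperLength (infOn (n := n) (pairEnergy Ψ)) := by
  have hn0 : n ≠ 0 := by omega
  refine ⟨?_, ?_, ?_, ?_, ?_⟩
  · intro c
    induction c using ZerothHomotopy.rec with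
    | mk φ => exact ne_top_of_le_ne_top (fin hn0 hΨ φ).ne (infOn_mk_le _ φ)
  · exact le_antisymm ((infOn_mk_le _ 1).trans (pairEnergy_one hΨ).le) bot_le
  · intro φ ψ
    have key : ∀ φ' ψ' : SympCt n, ZerothHomotopy.mk φ' = ZerothHomotopy.mk φ →
        ZerothHomotopy.mk ψ' = ZerothHomotopy.mk ψ →
        infOn (pairEnergy Ψ) (ZerothHomotopy.mk (φ * ψ)) ≤
          pairEnergy Ψ φ' + pairEnergy Ψ ψ' := by
      intro φ' ψ' h1 h2
      have j1 : Joined φ' φ := Quotient.exact h1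
      have j2 : Joined ψ' ψ := Quotient.exact h2
      refine ENNReal.le_of_forall_pos_le_add fun η hη _ => ?_
      obtain ⟨χ, hj, -, hF⟩ := sub hn0 hΨ φ' ψ' (η := (η : ℝ≥0∞)) (by exact_mod_cast hη)
      have h3 : ZerothHomotopy.mk χ = ZerothHomotopy.mk (φ * ψ) :=
        ZerothHomotopy.sound ((hj.symm.trans (j1.mul_right' ψ')).trans (j2.mul_left' φ)).somePath
      rw [← h3]
      exact (infOn_mk_le _ χ).trans hF
    exact ENNReal.le_iInf_add_iInf fun φ' ψ' => key φ'.1 ψ'.1 φ'.2 ψ'.2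
  · obtain ⟨ε₀, hε₀, v₀, hv₀, h⟩ := gap_bad hn
    refine ⟨Ψ (ENNReal.ofReal ε₀) * ENNReal.ofReal v₀, ?_, fun c hc => le_iInf fun φ => ?_⟩
    · exact ENNReal.mul_pos (hΨ.pos _ (ENNReal.ofReal_pos.2 hε₀)).ne'
        (ENNReal.ofReal_pos.2 hv₀).ne'
    · refine le_trans ?_ (badPairs_le hΨ.mono φ.1 hε₀)
      gcongr
      by_contra h1
      exact hc (φ.2.symm.trans (h φ.1 (not_le.1 h1).le))
  · intro E hE
    have h0 : ∀ ε : ℝ, 0 < ε → (E + 1) / Ψ (ENNReal.ofReal ε) ≠ ⊤ := fun ε hε =>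
      ENNReal.div_ne_top (ENNReal.add_ne_top.2 ⟨hE, ENNReal.one_ne_top⟩)
        (hΨ.pos _ (ENNReal.ofReal_pos.2 hε)).ne'
    refine (finite_bad hn (fun ε => (E + 1) / Ψ (ENNReal.ofReal ε)) h0).subset fun c hc => ?_
    have h1 : infOn (pairEnergy Ψ) c < E + 1 :=
      lt_of_le_of_lt hc (ENNReal.lt_add_right hE one_ne_zero)
    obtain ⟨φ, hφ⟩ := iInf_lt_iff.1 h1
    refine ⟨φ.1, φ.2, fun ε hε => ?_⟩
    rw [ENNReal.le_div_iff_mul_le (Or.inl (hΨ.pos _ (ENNReal.ofReal_pos.2 hε)).ne')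
      (Or.inl (hΨ.lt_top _ ENNReal.ofReal_lt_top).ne), mul_comm]
    exact (badPairs_le hΨ.mono φ.1 hε).trans hφ.le

theorem properLength_hess (hn : 2 ≤ n) : IsProperLength (infOn (n := n) hessEnergy) := by
  have h1 : infOn (n := n) hessEnergy = minEnergy (n := n) (2 * (n : ℝ)) := funext infOn_hess
  rw [h1]
  refine ⟨minEnergy_ne_top hn _ le_rfl, ?_, minEnergy_mul hn _ le_rfl, gap_minEnergy hn _ le_rfl,
    finite_minEnergy hn _ le_rfl⟩
  exact le_antisymm ((minEnergy_mk_le _ 1).trans (critEnergy_one (by omega) _ le_rfl).le) bot_le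

theorem properLength (hn : 3 ≤ n) {E : SympCt n → ℝ≥0∞} (hE : IsCritEnergy E) :
    IsProperLength (infOn E) := by
  rcases hE with ⟨Ψ, hΨ, rfl⟩ | rfl
  · exact properLength_pair hn hΨ
  · exact properLength_hess (by omega)

end Pool.Agent.BPR
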